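import Mathlib

/-! Elementary symmetric sums and Bonferroni inequalities. -/

set_option autoImplicit false

namespace Pool.Agent.MP_6e51af_nt.H82

open Finset

/-- elementary symmetric sum -/
noncomputable def es (S : Finset ℕ) (x : ℕ → ℝ) (j : ℕ) : ℝ :=
  ∑ T ∈ powersetCard j S, ∏ i ∈ T, x i

lemma es_zero (S : Finset ℕ) (x : ℕ → ℝ) : es S x 0 = 1 := by simp [es]

lemma es_empty (x : ℕ → ℝ) (j : ℕ) : es ∅ x (j + 1) = 0 := by
  rw [es, powersetCard_eq_empty.2 (by simp), sum_empty]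

lemma es_insert {S : Finset ℕ} {a : ℕ} (ha : a ∉ S) (x : ℕ → ℝ) (j : ℕ) :
    es (insert a S) x (j + 1) = es S x (j + 1) + x a * es S x j := by
  unfold es
  rw [powersetCard_succ_insert ha, sum_union, sum_image, mul_sum]
  · congr 1
    refine sum_congr rfl fun T hT => ?_
    rw [prod_insert fun h => ha ((mem_powersetCard.1 hT).1 h)]
  · intro T hT T' hT' h
    have h1 : a ∉ T := fun h => ha ((mem_powersetCard.1 hT).1 h)
    have h2 : a ∉ T' := fun h => ha ((mem_powersetCard.1 hT').1 h)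
    rw [← erase_insert h1, ← erase_insert h2]
    exact congrArg (fun s => s.erase a) h
  · rw [disjoint_left]
    intro T hT hT'
    obtain ⟨T', -, rfl⟩ := mem_image.1 hT'
    exact ha ((mem_powersetCard.1 hT).1 (mem_insert_self _ _))

lemma es_nonneg {S : Finset ℕ} {x : ℕ → ℝ} (h : ∀ i ∈ S, 0 ≤ x i) (j : ℕ) : 0 ≤ es S x j :=
  sum_nonneg fun _ hT => prod_nonneg fun i hi => h i ((mem_powersetCard.1 hT).1 hi)

/-- truncated inclusion-exclusion -/
noncomputable def bs (S : Finset ℕ) (x : ℕ → ℝ) (M : ℕ) : ℝ :=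
  ∑ j ∈ range M, (-1) ^ j * es S x j

lemma bs_insert {S : Finset ℕ} {a : ℕ} (ha : a ∉ S) (x : ℕ → ℝ) (M : ℕ) :
    bs (insert a S) x (M + 1) = bs S x (M + 1) - x a * bs S x M := by
  unfold bs
  rw [sum_range_succ', sum_range_succ' _ M, es_zero, es_zero, mul_sum]
  simp only [es_insert ha]
  rw [add_sub_right_comm, ← sum_sub_distrib]
  congr 1
  exact sum_congr rfl fun j _ => by ring

lemma bonf {S : Finset ℕ} {x : ℕ → ℝ} (h0 : ∀ i ∈ S, 0 ≤ x i) (h1 : ∀ i ∈ S, x i ≤ 1) (M : ℕ) :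
    0 ≤ (-1) ^ M * (∏ i ∈ S, (1 - x i) - bs S x M) := by
  induction S using Finset.induction_on generalizing M with
  | empty =>
    rcases M with _ | M
    · simp [bs]
    · simp [bs, sum_range_succ', es_zero, es_empty]
  | insert a S ha ih =>
    have a0 := h0 a (mem_insert_self _ _)
    have a1 := h1 a (mem_insert_self _ _)
    have ih' := ih (fun i hi => h0 i (mem_insert_of_mem hi))
      (fun i hi => h1 i (mem_insert_of_mem hi))
    rcases M with _ | M
    · simp only [bs, range_zero, sum_empty, pow_zero, one_mul, sub_zero]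
      exact prod_nonneg fun i hi => sub_nonneg.2 (h1 i hi)
    · rw [bs_insert ha, prod_insert ha]
      have e1 := ih' (M + 1)
      have e2 := mul_nonneg a0 (ih' M)
      rw [pow_succ] at e1 ⊢
      nlinarith

lemma bonf_up {S : Finset ℕ} {x : ℕ → ℝ} (h0 : ∀ i ∈ S, 0 ≤ x i) (h1 : ∀ i ∈ S, x i ≤ 1)
    {M : ℕ} (hM : Even M) : ∏ i ∈ S, (1 - x i) ≤ bs S x M + es S x M := by
  have := bonf h0 h1 (M + 1)
  rw [pow_succ, hM.neg_one_pow, bs, sum_range_succ, hM.neg_one_pow, ← bs] at this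
  linarith

lemma bonf_low {S : Finset ℕ} {x : ℕ → ℝ} (h0 : ∀ i ∈ S, 0 ≤ x i) (h1 : ∀ i ∈ S, x i ≤ 1)
    {M : ℕ} (hM : Even M) :
    bs S x M + es S x M ≤ ∏ i ∈ S, (1 - x i) + es S x (M + 1) := by
  have := bonf h0 h1 (M + 1 + 1)
  rw [pow_succ, pow_succ, hM.neg_one_pow, bs, sum_range_succ, sum_range_succ, pow_succ,
    hM.neg_one_pow, ← bs] at this
  linarith

lemma es_one (S : Finset ℕ) (x : ℕ → ℝ) : es S x 1 = ∑ i ∈ S, x i := by
  induction S using Finset.induction_on with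
  | empty => simpa using es_empty x 0
  | insert a S ha ih => rw [es_insert ha x 0, sum_insert ha, es_zero, zero_add, ih]; ring

lemma es_succ_le {S : Finset ℕ} {x : ℕ → ℝ} (h0 : ∀ i ∈ S, 0 ≤ x i) (j : ℕ) :
    (j + 1) * es S x (j + 1) ≤ (∑ i ∈ S, x i) * es S x j := by
  induction S using Finset.induction_on generalizing j with
  | empty => simp [es_empty]
  | insert a S ha ih =>
    have a0 := h0 a (mem_insert_self _ _)
    have h0' : ∀ i ∈ S, 0 ≤ x i := fun i hi => h0 i (mem_insert_of_mem hi)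
    rcases j with _ | j
    · simp [es_one, es_zero]
    · rw [es_insert ha, es_insert ha, sum_insert ha]
      have e1 := ih h0' (j + 1)
      have e2 := mul_le_mul_of_nonneg_left (ih h0' j) a0
      have e3 := mul_nonneg (mul_nonneg a0 a0) (es_nonneg h0' j)
      push_cast at e1 ⊢
      nlinarith

lemma es_succ_ge {S : Finset ℕ} {x : ℕ → ℝ} {μ : ℝ} (h0 : ∀ i ∈ S, 0 ≤ x i)
    (h1 : ∀ i ∈ S, x i ≤ μ) (j : ℕ) :
    (∑ i ∈ S, x i - j * μ) * es S x j ≤ (j + 1) * es S x (j + 1) := by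
  induction S using Finset.induction_on generalizing j with
  | empty =>
    rcases j with _ | j
    · simp [es_empty]
    · simp [es_empty]
  | insert a S ha ih =>
    have a0 := h0 a (mem_insert_self _ _)
    have a1 := h1 a (mem_insert_self _ _)
    have h0' : ∀ i ∈ S, 0 ≤ x i := fun i hi => h0 i (mem_insert_of_mem hi)
    have h1' : ∀ i ∈ S, x i ≤ μ := fun i hi => h1 i (mem_insert_of_mem hi)
    rcases j with _ | j
    · simp [es_one, es_zero]
    · rw [es_insert ha, es_insert ha, sum_insert ha]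
      have e1 := ih h0' h1' (j + 1)
      have e2 := mul_le_mul_of_nonneg_left (ih h0' h1' j) a0
      have e3 := mul_nonneg (mul_nonneg a0 (sub_nonneg.2 a1)) (es_nonneg h0' j)
      push_cast at e1 ⊢
      nlinarith

lemma es_le_one {S : Finset ℕ} {x : ℕ → ℝ} (h0 : ∀ i ∈ S, 0 ≤ x i) (hs : ∑ i ∈ S, x i ≤ 1)
    (j : ℕ) : es S x j ≤ 1 := by
  induction j with
  | zero => rw [es_zero]
  | succ j ih =>
    have e1 := es_succ_le h0 j
    have e2 := es_nonneg h0 (j + 1)
    have e3 := es_nonneg h0 j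
    have e4 : (0 : ℝ) ≤ j := Nat.cast_nonneg j
    nlinarith

lemma es_ge {S : Finset ℕ} {x : ℕ → ℝ} {μ s : ℝ} {M : ℕ} (h0 : ∀ i ∈ S, 0 ≤ x i)
    (h1 : ∀ i ∈ S, x i ≤ μ) (hs : 2 * s ≤ ∑ i ∈ S, x i) (hμ : M * μ ≤ s) (μ0 : 0 ≤ μ) :
    ∀ j ≤ M, (s / M) ^ j ≤ es S x j := by
  intro j
  induction j with
  | zero => intro _; rw [es_zero, pow_zero]
  | succ j ih =>
    intro hj
    have hj' : (j : ℝ) + 1 ≤ M := by exact_mod_cast hj
    have j0 : (0 : ℝ) ≤ j := Nat.cast_nonneg j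
    have M0 : (0 : ℝ) < M := by linarith
    have s0 : 0 ≤ s := le_trans (by positivity) hμ
    have e1 := es_succ_ge h0 h1 j
    have e2 := es_nonneg h0 (j + 1)
    have e3 := es_nonneg h0 j
    have e4 : s * es S x j ≤ M * es S x (j + 1) := by
      have : s ≤ ∑ i ∈ S, x i - j * μ := by nlinarith
      nlinarith
    rw [pow_succ]
    calc (s / M) ^ j * (s / M) ≤ es S x j * (s / M) :=
          mul_le_mul_of_nonneg_right (ih (by omega)) (by positivity)
      _ ≤ _ := by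
          rw [← mul_div_assoc, div_le_iff₀ M0]
          linarith

lemma sub_sum {S : Finset ℕ} {x : ℕ → ℝ} {s : ℝ} (s0 : 0 ≤ s) (h1 : ∀ i ∈ S, x i ≤ s)
    (hs : s ≤ ∑ i ∈ S, x i) : ∃ T ⊆ S, s ≤ ∑ i ∈ T, x i ∧ ∑ i ∈ T, x i ≤ 2 * s := by
  induction S using Finset.induction_on with
  | empty => exact ⟨∅, Subset.rfl, hs, by simpa using s0⟩
  | insert a S ha ih =>
    by_cases h : s ≤ ∑ i ∈ S, x i
    · obtain ⟨T, t1, t2⟩ := ih (fun i hi => h1 i (mem_insert_of_mem hi)) h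
      exact ⟨T, t1.trans (subset_insert _ _), t2⟩
    · refine ⟨_, Subset.rfl, hs, ?_⟩
      rw [sum_insert ha]
      linarith [h1 a (mem_insert_self _ _)]

end Pool.Agent.MP_6e51af_nt.H82
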