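import Pool.Agent.MP_6e51af_nt.H82.Top
import Pool.Agent.MP_6e51af_nt.H82.Bonf

/-! An interval with few survivors for a thin set of primes of about the same size. -/

set_option autoImplicit false

namespace Pool.Agent.MP_6e51af_nt.H82

open Finset Polynomial Pool.Agent.MP_c5bf7b_nt.H98

lemma fib (C y : ℕ) (A : ℕ → Prop) :
    ∑ b ∈ range C, cnt (Ico y (y + y)) (fun h => A (C * h + b)) ≤
      cnt (Ico (C * y) (C * y + C * y)) A := by
  classical
  simp only [cnt_eq]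
  have e : ∑ b ∈ range C, ((Ico y (y + y)).filter fun h => A (C * h + b)).card =
      ((range C ×ˢ Ico y (y + y)).filter fun z => A (C * z.2 + z.1)).card := by
    simp only [card_filter]
    rw [sum_product]
  rw [e]
  refine card_le_card_of_injOn (fun z => C * z.2 + z.1) (fun z hz => ?_) fun z hz z' hz' e => ?_
  · simp only [coe_filter, mem_product, mem_range, mem_Ico, Set.mem_ofPred_eq] at hz ⊢
    obtain ⟨⟨h1, h2, h3⟩, h4⟩ := hz
    have a1 : C * y ≤ C * z.2 := Nat.mul_le_mul_left _ h2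
    have a2 : C * (z.2 + 1) ≤ C * (y + y) := Nat.mul_le_mul_left _ h3
    rw [mul_add, mul_add] at a2
    exact ⟨⟨by omega, by omega⟩, h4⟩
  · simp only [coe_filter, mem_product, mem_range, mem_Ico, Set.mem_ofPred_eq] at hz hz' e
    have a1 := congrArg (· % C) e
    simp only [Nat.mul_add_mod, Nat.mod_eq_of_lt hz.1.1, Nat.mod_eq_of_lt hz'.1.1] at a1
    rw [a1] at e
    exact Prod.ext a1 (Nat.eq_of_mul_eq_mul_left (by omega) (Nat.add_right_cancel e))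

lemma low {Q : Finset ℕ} (hQ : ∀ p ∈ Q, p.Prime) {B : ℕ → ℕ → Prop} (hB : ∀ p ∈ Q, Per p (B p))
    {ρ : ℕ → ℕ} (hρ : ∀ p ∈ Q, cnt (range p) (B p) = ρ p) {d N M : ℕ} (hd : ∀ p ∈ Q, ρ p ≤ d)
    (d1 : 1 ≤ d) (hN : Q.card ≤ N) (N1 : 1 ≤ N) (hM : Even (M + 1)) (a L : ℕ) :
    (cnt (Ico a (a + L)) (fun m => ∀ p ∈ Q, ¬B p m) : ℝ) ≤
      L * bs Q (fun p => (ρ p : ℝ) / p) (M + 1) + (M + 1) * ((N : ℝ) * d) ^ M +
        ∑ S ∈ powersetCard (M + 1) Q, (cnt (Ico a (a + L)) (fun m => ∀ p ∈ S, B p m) : ℝ) := by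
  classical
  set X : ℕ → ℕ → ℝ := fun m p => if B p m then 1 else 0 with hX
  have e1 : ∀ j, ∑ m ∈ Ico a (a + L), es Q (X m) j =
      ∑ S ∈ powersetCard j Q, (cnt (Ico a (a + L)) (fun m => ∀ p ∈ S, B p m) : ℝ) := by
    intro j
    unfold es
    rw [sum_comm]
    refine sum_congr rfl fun S _ => ?_
    rw [cnt_eq, card_filter, Nat.cast_sum]
    refine sum_congr rfl fun m _ => ?_
    rw [hX, prod_boole]
    simp
  have e2 : (cnt (Ico a (a + L)) (fun m => ∀ p ∈ Q, ¬B p m) : ℝ) =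
      ∑ m ∈ Ico a (a + L), ∏ p ∈ Q, (1 - X m p) := by
    rw [cnt_eq, card_filter, Nat.cast_sum]
    refine sum_congr rfl fun m _ => ?_
    rw [prod_congr rfl (g := fun p => if ¬B p m then (1 : ℝ) else 0), prod_boole]
    · simp
    · intro p _
      by_cases h : B p m <;> simp [hX, h]
  have e3 : ∀ j ∈ range (M + 1), (-1) ^ j * ∑ m ∈ Ico a (a + L), es Q (X m) j ≤
      L * ((-1) ^ j * es Q (fun p => (ρ p : ℝ) / p) j) + ((N : ℝ) * d) ^ M := by
    intro j hj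
    have a1 : |∑ m ∈ Ico a (a + L), es Q (X m) j - L * es Q (fun p => (ρ p : ℝ) / p) j| ≤
        ((N : ℝ) * d) ^ M := by
      rw [e1, es, mul_sum, ← sum_sub_distrib]
      refine (abs_sum_le_sum_abs _ _).trans ((sum_le_card_nsmul _ _ ((d : ℝ) ^ j) ?_).trans ?_)
      · intro S hS
        obtain ⟨s1, s2⟩ := mem_powersetCard.1 hS
        refine (primes_count (fun p hp => hQ p (s1 hp)) (fun p hp => hB p (s1 hp))
          (fun p hp => hρ p (s1 hp)) a L).trans ?_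
        rw [← s2]
        exact_mod_cast prod_le_pow_card _ _ _ fun p hp => hd p (s1 hp)
      · rw [card_powersetCard, nsmul_eq_mul]
        have b1 : Q.card.choose j * d ^ j ≤ (N * d) ^ M := by
          calc Q.card.choose j * d ^ j ≤ N ^ j * d ^ j :=
                Nat.mul_le_mul_right _ ((Nat.choose_le_pow _ _).trans (Nat.pow_le_pow_left hN _))
            _ = (N * d) ^ j := (mul_pow _ _ _).symm
            _ ≤ _ := Nat.pow_le_pow_right (Nat.mul_pos N1 d1) (Nat.lt_succ_iff.1 (mem_range.1 hj))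
        exact_mod_cast b1
    rw [abs_le] at a1
    rcases neg_one_pow_eq_or ℝ j with h | h <;> rw [h] <;> linarith [a1.1, a1.2]
  have e4 := sum_le_sum e3
  rw [sum_add_distrib, ← mul_sum, ← bs, sum_const, card_range, nsmul_eq_mul] at e4
  have e5 : ∑ m ∈ Ico a (a + L), bs Q (X m) (M + 1) =
      ∑ j ∈ range (M + 1), (-1) ^ j * ∑ m ∈ Ico a (a + L), es Q (X m) j := by
    unfold bs
    rw [sum_comm]
    exact sum_congr rfl fun j _ => (mul_sum _ _ _).symm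
  rw [e2, ← e1]
  refine (sum_le_sum fun m _ => bonf_up (fun p _ => ?_) (fun p _ => ?_) hM).trans ?_
  · simp only [hX]; split_ifs <;> norm_num
  · simp only [hX]; split_ifs <;> norm_num
  · rw [sum_add_distrib, e5]
    push_cast at e4
    linarith

open Classical in
lemma bad_card {G : ℤ[X]} {A : ℕ} (hA : ∀ (s β : ℤ) (B : ℕ), |s| ≤ B → |β| ≤ B →
      |hom G s β| ≤ A * B ^ G.natDegree) {Q : Finset ℕ} (hQ : ∀ p ∈ Q, p.Prime) {v n E : ℕ}
    (hv : 2 ≤ v) (hA' : A ≤ v) (h1 : ∀ p ∈ Q, v ≤ p) (hE : 2 * v ^ 3 * E ≤ v ^ n) (M : ℕ) :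
    ((powersetCard M Q).filter (Bad G v (v ^ n) E)).card ≤
      2 * v ^ 3 * (2 * v ^ n + 1) * 2 ^ (n * G.natDegree + 1) := by
  set box := Icc 1 (2 * v ^ 3) ×ˢ Icc (-((v ^ n : ℕ) : ℤ)) (v ^ n : ℕ) with hbox
  set R : ℕ × ℤ → ℤ := fun z => hom G ((z.1 * E : ℕ) : ℤ) z.2 with hR
  have a1 : (powersetCard M Q).filter (Bad G v (v ^ n) E) ⊆
      (box.filter fun z => R z ≠ 0).biUnion
        fun z => (Q.filter fun p : ℕ => (p : ℤ) ∣ R z).powerset := by
    intro S hS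
    obtain ⟨s1, z, z1, z2, z3⟩ := mem_filter.1 hS
    exact mem_biUnion.2 ⟨z, mem_filter.2 ⟨z1, z2⟩, mem_powerset.2 fun p hp =>
      mem_filter.2 ⟨(mem_powersetCard.1 s1).1 hp, z3 p hp⟩⟩
  refine (card_le_card a1).trans ((card_biUnion_le_card_mul _ _ (2 ^ (n * G.natDegree + 1))
    fun z hz => ?_).trans (Nat.mul_le_mul_right _ ((card_filter_le _ _).trans (le_of_eq ?_))))
  · obtain ⟨z1, z2⟩ := mem_filter.1 hz
    obtain ⟨z3, z4⟩ := mem_product.1 z1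
    rw [card_powerset]
    refine Nat.pow_le_pow_right two_pos (few_primes hQ hv h1 z2 ((hA _ _ (v ^ n) ?_ ?_).trans ?_))
    · rw [abs_of_nonneg (Int.natCast_nonneg _)]
      exact_mod_cast (Nat.mul_le_mul_right E (mem_Icc.1 z3).2).trans hE
    · exact abs_le.2 (mem_Icc.1 z4)
    · rw [pow_succ', pow_mul]
      push_cast
      gcongr
  · rw [hbox, card_product, Nat.card_Icc, Int.card_Icc]
    congr 1
    omega

theorem core (F : ℤ[X]) (hF : 0 < F.natDegree) {d M : ℕ} (d1 : 1 ≤ d)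
    (hd : ∀ p : ℕ, p.Prime → nroots F p ≤ d) (hM : Even (M + 1)) {s : ℝ} (s0 : 0 < s)
    (s1 : 4 * (d : ℝ) ^ (M + 1) * s ≤ 1) :
    ∃ δ : ℝ, 0 < δ ∧ ∃ v0 : ℕ, ∀ v y : ℕ, v0 ≤ v → v0 ≤ y → v ^ 8 * y ≤ v ^ (16 * M + 14) →
      ∀ Q : Finset ℕ, (∀ p ∈ Q, p.Prime ∧ p ≤ v ^ 16 ∧ v ^ (16 * M + 15) ≤ p ^ (M + 1) ∧
        1 ≤ nroots F p) → s ≤ ∑ p ∈ Q, (nroots F p : ℝ) / p →
        ∑ p ∈ Q, (nroots F p : ℝ) / p ≤ 2 * s →
        ∃ a : ℕ, (cnt (Ico y (y + y)) (fun h => ∀ p ∈ Q, ¬Rt F p (a + h)) : ℝ) ≤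
          (1 - δ) * y * ∏ p ∈ Q, (1 - (nroots F p : ℝ) / p) := by
  classical
  obtain ⟨G, G0, hG⟩ := ex_G F hF
  obtain ⟨K, hK⟩ := hom_zero G0
  obtain ⟨A, hA⟩ := hom_le G
  have d1' : (1 : ℝ) ≤ d := by exact_mod_cast d1
  set δ : ℝ := (s / (2 * d) / (M + 1 : ℕ)) ^ (M + 1) / 4 with hδ
  have δ0 : 0 < δ := by positivity
  set K1 : ℝ := 11 + 2 * (M + 1) * d ^ M +
    12 * d ^ (M + 1) * 2 ^ ((16 * M + 10) * G.natDegree + 1) with hK1
  refine ⟨δ, δ0, 6 * K + 5 + A + ⌈K1 / δ⌉₊ + ⌈(M + 1 : ℕ) * (2 * d) / s⌉₊,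
    fun v y hv hy hvy Q hQ q1 q2 => ?_⟩
  have v5 : 5 ≤ v := by omega
  have v0 : (0 : ℝ) < v := by exact_mod_cast (by omega : 0 < v)
  have y0 : 0 < y := by omega
  have pr : ∀ p ∈ Q, p.Prime := fun p hp => (hQ p hp).1
  have big : ∀ p ∈ Q, 2 * v ^ 8 < p := by
    intro p hp
    have a1 : (v ^ 9) ^ (M + 1) ≤ p ^ (M + 1) := by
      rw [← pow_mul]
      exact (Nat.pow_le_pow_right (by omega) (by omega)).trans (hQ p hp).2.2.1
    have a2 := (Nat.pow_le_pow_iff_left (by omega)).1 a1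
    have a3 : 0 < v ^ 8 := by positivity
    nlinarith [pow_succ v 8]
  have big' : ∀ p ∈ Q, v ≤ p := fun p hp => by
    have := Nat.le_self_pow (by norm_num : 8 ≠ 0) v
    have := big p hp
    omega
  set Z := v ^ (16 * M + 10) with hZ
  obtain ⟨E, hE, E0, Y1, Y2⟩ : ∃ E : ℕ, (∀ p ∈ Q, Nat.Coprime p E) ∧ 0 < E ∧
      E * v ^ 8 * y ≤ Z * v ^ 4 ∧ Z * v ^ 4 ≤ 2 * (E * v ^ 8 * y) := by
    have b0 : 0 < v ^ 8 * y := by positivity
    have b1 : v ^ 8 * y ≤ Z * v ^ 4 := by rwa [hZ, ← pow_add]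
    have b2 : Z * v ^ 4 / (v ^ 8 * y) ≠ 0 := (Nat.div_pos b1 b0).ne'
    refine ⟨2 ^ Nat.log 2 (Z * v ^ 4 / (v ^ 8 * y)), fun p hp => Nat.Coprime.pow_right _
      (Nat.coprime_of_lt_prime (by norm_num) (by have := big' p hp; omega) (pr p hp)),
      by positivity, ?_, ?_⟩
    · rw [mul_assoc]
      exact (Nat.le_div_iff_mul_le b0).1 (Nat.pow_log_le_self 2 b2)
    · have := (Nat.div_lt_iff_lt_mul b0).1
        (Nat.lt_pow_succ_log_self one_lt_two (Z * v ^ 4 / (v ^ 8 * y)))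
      rw [pow_succ 2] at this
      exact this.le.trans (le_of_eq (by ring))
  obtain ⟨r, hr⟩ : ∃ r, ∀ p ∈ Q, Rt F p r := by
    have a1 := crt_card pr fun p _ => Rt_per F p
    simp only [Rt_cnt] at a1
    have a2 : 0 < ∏ p ∈ Q, nroots F p := prod_pos fun p hp => (hQ p hp).2.2.2
    rw [← a1, cnt_eq] at a2
    obtain ⟨r, hr⟩ := card_pos.1 a2
    exact ⟨r, (mem_filter.1 hr).2⟩
  set I := Ico (v ^ 8) (v ^ 8 + v ^ 7) with hI
  have w1 : v ^ 7 ≤ v ^ 8 := Nat.pow_le_pow_right (by omega) (by norm_num)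
  have w2 : 0 < v ^ 7 := by positivity
  have co : ∀ c ∈ I, ∀ p ∈ Q, Nat.Coprime p (E * c) := fun c hc p hp => by
    have := mem_Ico.1 hc
    have := big p hp
    exact Nat.Coprime.mul_right (hE p hp) (Nat.coprime_of_lt_prime (by omega) (by omega) (pr p hp))
  set u : ℕ → ℕ := fun c => (E * c) ^ ((∏ p ∈ Q, p).totient - 1) with hu
  have hu1 : ∀ c ∈ I, E * c * u c ≡ 1 [MOD ∏ p ∈ Q, p] := fun c hc => by
    have a1 : 0 < (∏ p ∈ Q, p).totient := Nat.totient_pos.2 (prod_pos fun p hp => (pr p hp).pos)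
    rw [hu, ← pow_succ', Nat.sub_add_cancel a1]
    exact Nat.ModEq.pow_totient (Nat.Coprime.prod_left (co c hc)).symm
  set x : ℕ → ℝ := fun p => (nroots F p : ℝ) / p with hx
  set x' : ℕ → ℝ := fun p => 1 / (p : ℝ) with hx'
  set Y := E * v ^ 8 * y with hY
  have L1 : ∀ c ∈ I, _ := fun c hc => low pr (B := fun p m => Rt F p (r + m * u c))
    (fun p _ => (Rt_per F p).aff r _) (ρ := nroots F)
    (fun p hp => (aff_card (pr p hp).pos (Nat.Coprime.pow_right _ (co c hc p hp)) r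
      (Rt_per F p)).trans (Rt_cnt F p)) (fun p hp => hd p (pr p hp)) d1 (N := v ^ 16)
    (by
      have : Q ⊆ Icc 1 (v ^ 16) := fun p hp => mem_Icc.2 ⟨(pr p hp).pos, (hQ p hp).2.1⟩
      simpa using card_le_card this) (Nat.pos_of_ne_zero (by positivity)) hM
    (E * c * y) (E * c * y)
  have L2 : ∀ S ∈ powersetCard (M + 1) Q, ∑ c ∈ I, (cnt (Ico (E * c * y) (E * c * y + E * c * y))
      (fun m => ∀ p ∈ S, Rt F p (r + m * u c)) : ℝ) ≤
      (v : ℝ) ^ 7 * Y * (1 + 11 / v) * (∏ p ∈ S, x p - ∏ p ∈ S, x' p) +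
        if Bad G v Z E S then (v : ℝ) ^ 7 * ∏ p ∈ S, (nroots F p : ℝ) else 0 := fun S hS => by
    obtain ⟨s1, s2⟩ := mem_powersetCard.1 hS
    refine top hG hK (fun p hp => pr p (s1 hp)) (fun p hp => hr p (s1 hp))
      (fun p hp => big p (s1 hp)) (fun p hp => hE p (s1 hp)) E0 ?_ ?_ Y1 Y2 (by omega) (by omega)
      (u := u) fun c hc => (hu1 c hc).of_dvd (prod_dvd_prod_of_subset _ _ _ s1)
    · refine (Nat.pow_le_pow_iff_left (by omega : M + 1 ≠ 0)).1 ?_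
      rw [← prod_pow, hZ, ← pow_add]
      nth_rewrite 1 [← s2]
      exact pow_card_le_prod _ _ _ fun p hp => (hQ p (s1 hp)).2.2.1
    · refine (prod_le_pow_card _ _ _ fun p hp => (hQ p (s1 hp)).2.1).trans (le_of_eq ?_)
      rw [s2, hZ]
      ring
  have L3 := bad_card hA pr (n := 16 * M + 10) (E := E) (by omega) (by omega) big' (by
    refine Nat.le_of_mul_le_mul_right (c := v ^ 4) (le_trans ?_ Y1) (by positivity)
    have : 2 * v ^ 7 ≤ v ^ 8 * y := by nlinarith [pow_succ v 7]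
    calc 2 * v ^ 3 * E * v ^ 4 = E * (2 * v ^ 7) := by ring
      _ ≤ E * (v ^ 8 * y) := Nat.mul_le_mul_left _ this
      _ = _ := by rw [hY]; ring) (M + 1)
  set W : ℝ := ∑ c ∈ I, ((E * c * y : ℕ) : ℝ) with hW
  have cI : (I.card : ℝ) = v ^ 7 := by
    rw [hI, Nat.card_Ico, Nat.add_sub_cancel_left, Nat.cast_pow]
  have W1 : (v : ℝ) ^ 7 * Y ≤ W := by
    rw [← cI, ← nsmul_eq_mul]
    refine card_nsmul_le_sum _ _ _ fun c hc => Nat.cast_le.2 ?_
    rw [hY]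
    gcongr
    exact (mem_Ico.1 hc).1
  have p0 : ∀ p ∈ Q, (0 : ℝ) < p := fun p hp => by exact_mod_cast (pr p hp).pos
  have x0 : ∀ p ∈ Q, 0 ≤ x p := fun p _ => by simp only [hx]; positivity
  have x0' : ∀ p ∈ Q, 0 ≤ x' p := fun p _ => by simp only [hx']; positivity
  have x1 : ∀ p ∈ Q, x' p ≤ x p := fun p hp =>
    div_le_div_of_nonneg_right (by exact_mod_cast (hQ p hp).2.2.2) (p0 p hp).le
  have x2 : ∀ p ∈ Q, x p ≤ d * x' p := fun p hp => by
    rw [hx, hx', mul_one_div]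
    exact div_le_div_of_nonneg_right (by exact_mod_cast hd p (pr p hp)) (p0 p hp).le
  have dM : (1 : ℝ) ≤ d ^ (M + 1) := one_le_pow₀ d1'
  have xs : ∑ p ∈ Q, x p ≤ 1 := by nlinarith
  have x3 : ∀ p ∈ Q, x p ≤ 1 := fun p hp => (single_le_sum x0 hp).trans xs
  have c1 : es Q x' (M + 1) ≤ es Q x (M + 1) := sum_le_sum fun S hS =>
    prod_le_prod (fun p hp => x0' p ((mem_powersetCard.1 hS).1 hp))
      fun p hp => x1 p ((mem_powersetCard.1 hS).1 hp)
  have c2 := es_le_one x0 xs (M + 1)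
  have c3 := es_nonneg x0' (M + 1)
  have c4 : es Q x (M + 1) ≤ d ^ (M + 1) * es Q x' (M + 1) := by
    rw [es, es, mul_sum]
    refine sum_le_sum fun S hS => ?_
    obtain ⟨s1, s2⟩ := mem_powersetCard.1 hS
    rw [← s2, ← prod_const, ← prod_mul_distrib]
    exact prod_le_prod (fun p hp => x0 p (s1 hp)) fun p hp => x2 p (s1 hp)
  have c5 : es Q x (M + 1 + 1) ≤ es Q x' (M + 1) / 2 := by
    have a1 := es_succ_le x0 (M + 1)
    have a2 := es_nonneg x0 (M + 1 + 1)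
    have a3 := mul_le_mul q2 c4 (es_nonneg x0 _) (by positivity)
    have a4 := mul_le_mul_of_nonneg_right s1 c3
    have a5 : (0 : ℝ) ≤ (M + 1 : ℕ) := Nat.cast_nonneg _
    nlinarith
  have c6 : 4 * δ ≤ es Q x' (M + 1) := by
    have a1 : 2 * (s / (2 * d)) ≤ ∑ p ∈ Q, x' p := by
      have := q1.trans (sum_le_sum x2)
      rw [← mul_sum] at this
      rw [show 2 * (s / (2 * d)) = s / d by field_simp, div_le_iff₀ (by positivity)]
      linarith
    have a2 : (M + 1 : ℕ) * (1 / (v : ℝ)) ≤ s / (2 * d) := by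
      have b1 : (M + 1 : ℕ) * (2 * (d : ℝ)) / s ≤ v :=
        (Nat.le_ceil _).trans (Nat.cast_le.2 (by omega))
      rw [div_le_iff₀ s0] at b1
      rw [mul_one_div, div_le_div_iff₀ v0 (by positivity)]
      linarith
    have := es_ge x0' (fun p hp => one_div_le_one_div_of_le v0 (Nat.cast_le.2 (big' p hp))) a1 a2
      (by positivity) (M + 1) le_rfl
    rw [hδ]
    linarith
  have c7 := bonf_low x0 x3 hM
  have c8 : ∏ p ∈ Q, (1 - x p) ≤ 1 :=
    prod_le_one (fun p hp => sub_nonneg.2 (x3 p hp)) fun p hp => sub_le_self _ (x0 p hp)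
  have e1 : ((v ^ 16 : ℕ) : ℝ) ^ M ≤ 2 * (Y / v) := by
    rw [← mul_div_assoc, le_div_iff₀ v0]
    have : (v ^ 16) ^ M * v ≤ 2 * Y := by
      refine le_trans ?_ Y2
      rw [hZ, ← pow_mul, ← pow_succ, ← pow_add]
      exact Nat.pow_le_pow_right (by omega) (by omega)
    exact_mod_cast this
  have e2 : ∑ S ∈ powersetCard (M + 1) Q,
      (if Bad G v Z E S then (v : ℝ) ^ 7 * ∏ p ∈ S, (nroots F p : ℝ) else 0) ≤
      v ^ 7 * (Y / v) * (12 * d ^ (M + 1) * 2 ^ ((16 * M + 10) * G.natDegree + 1)) := by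
    rw [← sum_filter]
    refine (sum_le_card_nsmul _ _ ((v : ℝ) ^ 7 * d ^ (M + 1)) fun S hS => ?_).trans ?_
    · obtain ⟨s1, s2⟩ := mem_powersetCard.1 (mem_filter.1 hS).1
      refine mul_le_mul_of_nonneg_left ?_ (by positivity)
      rw [← s2]
      exact_mod_cast prod_le_pow_card _ _ _ fun p hp => hd p (pr p (s1 hp))
    · have a1 : ((2 * v ^ 3 * (2 * Z + 1) : ℕ) : ℝ) ≤ 12 * (Y / v) := by
        rw [← mul_div_assoc, le_div_iff₀ v0]
        have Z0 : 0 < Z := by positivity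
        have : 2 * v ^ 3 * (2 * Z + 1) * v ≤ 12 * Y := by
          calc 2 * v ^ 3 * (2 * Z + 1) * v ≤ 2 * v ^ 3 * (3 * Z) * v := by gcongr; omega
            _ = 6 * (Z * v ^ 4) := by ring
            _ ≤ _ := by omega
        exact_mod_cast this
      have a2 : (((powersetCard (M + 1) Q).filter (Bad G v Z E)).card : ℝ) ≤
          (2 * v ^ 3 * (2 * Z + 1) : ℕ) * 2 ^ ((16 * M + 10) * G.natDegree + 1) := by
        exact_mod_cast L3
      rw [nsmul_eq_mul]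
      calc _ ≤ 12 * (Y / v) * 2 ^ ((16 * M + 10) * G.natDegree + 1) *
            ((v : ℝ) ^ 7 * d ^ (M + 1)) := by
            refine mul_le_mul_of_nonneg_right (a2.trans ?_) (by positivity)
            gcongr
        _ = _ := by ring
  have e3 : K1 / v ≤ δ := by
    have b1 : K1 / δ ≤ v := (Nat.le_ceil _).trans (Nat.cast_le.2 (by omega))
    rw [div_le_iff₀ δ0] at b1
    rw [div_le_iff₀ v0]
    linarith
  have f1 := sum_le_sum L1
  have f2 := sum_le_sum L2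
  rw [sum_add_distrib, sum_add_distrib, ← sum_mul, ← hW, sum_const, nsmul_eq_mul, cI,
    sum_comm] at f1
  rw [sum_add_distrib, ← mul_sum, sum_sub_distrib, ← es, ← es] at f2
  have V0 : (0 : ℝ) ≤ v ^ 7 * Y := by positivity
  have f3 : (v : ℝ) ^ 7 * ((M + 1) * (((v ^ 16 : ℕ) : ℝ) * d) ^ M) ≤
      v ^ 7 * (Y / v) * (2 * (M + 1) * d ^ M) := by
    rw [mul_pow]
    calc _ ≤ (v : ℝ) ^ 7 * ((M + 1) * (2 * (Y / v) * d ^ M)) := by gcongr
      _ = _ := by ring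
  have f4 : (v : ℝ) ^ 7 * Y * (1 + 11 / v) * (es Q x (M + 1) - es Q x' (M + 1)) ≤
      W * (es Q x (M + 1) - es Q x' (M + 1)) + v ^ 7 * (Y / v) * 11 := by
    have a1 := mul_le_mul_of_nonneg_right W1 (sub_nonneg.2 c1)
    have a2 : (v : ℝ) ^ 7 * (Y / v) * 11 * (es Q x (M + 1) - es Q x' (M + 1)) ≤
        v ^ 7 * (Y / v) * 11 * 1 := mul_le_mul_of_nonneg_left (by linarith) (by positivity)
    calc _ = (v : ℝ) ^ 7 * Y * (es Q x (M + 1) - es Q x' (M + 1)) +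
          v ^ 7 * (Y / v) * 11 * (es Q x (M + 1) - es Q x' (M + 1)) := by ring
      _ ≤ _ := by linarith
  have f5 : (v : ℝ) ^ 7 * (Y / v) * K1 ≤ W * δ := by
    calc _ = (v : ℝ) ^ 7 * Y * (K1 / v) := by ring
      _ ≤ _ := mul_le_mul W1 e3 (by positivity) (V0.trans W1)
  have f6 : W * (bs Q x (M + 1) + es Q x (M + 1) - es Q x' (M + 1) + δ) ≤
      W * ((1 - δ) * ∏ p ∈ Q, (1 - x p)) :=
    mul_le_mul_of_nonneg_left (by nlinarith) (V0.trans W1)
  have f7 : ∑ c ∈ I, (cnt (Ico (E * c * y) (E * c * y + E * c * y))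
      (fun m => ∀ p ∈ Q, ¬Rt F p (r + m * u c)) : ℝ) ≤
      ∑ c ∈ I, ((E * c * y : ℕ) : ℝ) * ((1 - δ) * ∏ p ∈ Q, (1 - x p)) := by
    rw [← sum_mul, ← hW]
    rw [hK1] at f5
    linarith
  obtain ⟨c, hc, g1⟩ := exists_le_of_sum_le ⟨v ^ 8, mem_Ico.2 ⟨le_rfl, by omega⟩⟩ f7
  have g2 := fib (E * c) y fun m => ∀ p ∈ Q, ¬Rt F p (r + m * u c)
  have g3 : ∑ b ∈ range (E * c), (cnt (Ico y (y + y))
      (fun h => ∀ p ∈ Q, ¬Rt F p (r + (E * c * h + b) * u c)) : ℝ) ≤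
      ∑ _b ∈ range (E * c), (1 - δ) * y * ∏ p ∈ Q, (1 - x p) := by
    rw [sum_const, card_range, nsmul_eq_mul, ← Nat.cast_sum]
    refine (Nat.cast_le.2 g2).trans (g1.trans (le_of_eq ?_))
    push_cast
    ring
  obtain ⟨b, -, g4⟩ := exists_le_of_sum_le ⟨0, mem_range.2 (Nat.mul_pos E0 (by
    have := mem_Ico.1 hc
    omega))⟩ g3
  refine ⟨r + b * u c, le_trans (le_of_eq (congrArg _ (cnt_congr fun h _ =>
    forall₂_congr fun p hp => not_congr ((Rt_per F p).iff ?_)))) g4⟩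
  have a1 := (((hu1 c hc).of_dvd (dvd_prod_of_mem (fun p => p) hp)).mul_left h).add_left
    (r + b * u c)
  rw [mul_one] at a1
  refine a1.symm.trans ?_
  rw [show r + b * u c + h * (E * c * u c) = r + (E * c * h + b) * u c by ring]

end Pool.Agent.MP_6e51af_nt.H82
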