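import Pool.Agent.MP_6e51af_nt.H82.Per

/-! Multiples of a residue that fall in a short arc. -/

set_option autoImplicit false

namespace Pool.Agent.MP_6e51af_nt.H82

open Finset

/-- some `m` in `[Y, Y')` is congruent to `c τ` modulo `D` -/
def Hit (D Y Y' τ c : ℕ) : Prop := ∃ m ∈ Ico Y Y', (D : ℤ) ∣ (m : ℤ) - c * τ

lemma block {D q Y Y' τ : ℕ} {a : ℤ} (hD : 0 < D) (hY : Y ≤ Y') (co : IsCoprime a (q : ℤ))
    (hβ : (q : ℤ) * |(q : ℤ) * τ - a * D| ≤ D) (c0 : ℕ) :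
    (cnt (Ico c0 (c0 + q)) (Hit D Y Y' τ) : ℝ) ≤ q * (Y' - Y) / D + 3 := by
  classical
  have D0 : (0 : ℝ) < D := by exact_mod_cast hD
  have hY' : (Y : ℝ) ≤ Y' := by exact_mod_cast hY
  set β : ℤ := q * τ - a * D with hb
  set lo : ℝ := (q * Y - q * c0 * τ) / D - 1 with hlo
  set len : ℝ := q * (Y' - Y) / D + 2 with hlen
  have len0 : 0 ≤ len := by
    have : 0 ≤ (Y' : ℝ) - Y := sub_nonneg.2 hY'
    positivity
  have key : ∀ c : ℕ, ∃ n : ℤ, c ∈ (Ico c0 (c0 + q)).filter (Hit D Y Y' τ) →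
      n ∈ Icc ⌈lo⌉ ⌊lo + len⌋ ∧ (q : ℤ) ∣ n - (c - c0) * a := by
    intro c
    by_cases hc : c ∈ (Ico c0 (c0 + q)).filter (Hit D Y Y' τ)
    swap
    · exact ⟨0, fun h => absurd h hc⟩
    obtain ⟨h1, m, hm, e, he⟩ := mem_filter.1 hc
    rw [mem_Ico] at h1 hm
    obtain ⟨i, rfl⟩ := Nat.exists_eq_add_of_le h1.1
    have hi : i < q := by omega
    refine ⟨i * a + q * e, fun _ => ⟨?_, e, by push_cast; ring⟩⟩
    have e1 : (D : ℤ) * (i * a + q * e) = q * m - q * c0 * τ - i * β := by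
      push_cast at he
      linear_combination (-(q : ℤ)) * he + (i : ℤ) * hb
    have e2 : |(i : ℤ) * β| ≤ D := by
      rw [abs_mul, abs_of_nonneg (Int.natCast_nonneg i)]
      exact le_trans (mul_le_mul_of_nonneg_right (by exact_mod_cast hi.le) (abs_nonneg _)) hβ
    rw [abs_le] at e2
    have e3 : (D : ℝ) * ((i * a + q * e : ℤ) : ℝ) = q * m - q * c0 * τ - ((i * β : ℤ) : ℝ) := by
      exact_mod_cast e1
    have e4 : -(D : ℝ) ≤ ((i * β : ℤ) : ℝ) := by exact_mod_cast e2.1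
    have e5 : ((i * β : ℤ) : ℝ) ≤ D := by exact_mod_cast e2.2
    have m1 : (q : ℝ) * Y ≤ q * m :=
      mul_le_mul_of_nonneg_left (by exact_mod_cast hm.1) (Nat.cast_nonneg q)
    have m2 : (q : ℝ) * m ≤ q * Y' :=
      mul_le_mul_of_nonneg_left (by exact_mod_cast hm.2.le) (Nat.cast_nonneg q)
    rw [mem_Icc, Int.ceil_le, Int.le_floor]
    constructor
    · rw [hlo, sub_le_iff_le_add, div_le_iff₀ D0]
      linarith
    · have : lo + len = (q * Y' - q * c0 * τ + D) / D := by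
        rw [hlo, hlen]
        field_simp
        ring
      rw [this, le_div_iff₀ D0]
      linarith
  choose n hn using key
  have h1 : ((Ico c0 (c0 + q)).filter (Hit D Y Y' τ)).card ≤ (Icc ⌈lo⌉ ⌊lo + len⌋).card := by
    refine card_le_card_of_injOn n (fun c hc => (hn c hc).1) fun c hc c' hc' e => ?_
    have a1 := (hn c hc).2
    have a2 := (hn c' hc').2
    rw [← e] at a2
    have a3 : (q : ℤ) ∣ ((c : ℤ) - c') * a := by
      have := dvd_sub a2 a1
      rwa [show n c - (c' - c0) * a - (n c - (c - c0) * a) = ((c : ℤ) - c') * a by ring] at this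
    have a4 : (q : ℤ) ∣ (c : ℤ) - c' := co.symm.dvd_of_dvd_mul_right a3
    have b1 := mem_Ico.1 (mem_filter.1 hc).1
    have b2 := mem_Ico.1 (mem_filter.1 hc').1
    have a5 := Int.eq_zero_of_abs_lt_dvd a4 (by rw [abs_lt]; omega)
    omega
  rw [Int.card_Icc] at h1
  rw [cnt_eq]
  have h2 : (((⌊lo + len⌋ + 1 - ⌈lo⌉).toNat : ℕ) : ℝ) ≤ len + 1 := by
    rcases le_total (⌊lo + len⌋ + 1 - ⌈lo⌉) 0 with h | h
    · rw [Int.toNat_eq_zero.2 h]
      push_cast
      linarith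
    · have : (((⌊lo + len⌋ + 1 - ⌈lo⌉).toNat : ℕ) : ℝ) = ((⌊lo + len⌋ + 1 - ⌈lo⌉ : ℤ) : ℝ) := by
        exact_mod_cast Int.toNat_of_nonneg h
      rw [this]
      push_cast
      linarith [Int.floor_le (lo + len), Int.le_ceil lo]
  have h3 : (((Ico c0 (c0 + q)).filter (Hit D Y Y' τ)).card : ℝ) ≤
      ((⌊lo + len⌋ + 1 - ⌈lo⌉).toNat : ℕ) := by exact_mod_cast h1
  linarith

lemma blocks {q : ℕ} {A : ℕ → Prop} {B : ℝ} (h : ∀ c0, (cnt (Ico c0 (c0 + q)) A : ℝ) ≤ B)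
    (c0 n : ℕ) : (cnt (Ico c0 (c0 + n * q)) A : ℝ) ≤ n * B := by
  classical
  induction n with
  | zero => simp [cnt]
  | succ n ih =>
    rw [add_mul, one_mul, ← add_assoc,
      ← Ico_union_Ico_eq_Ico (b := c0 + n * q) (by omega) (by omega), cnt_eq, filter_union,
      card_union_of_disjoint (disjoint_filter_filter (Ico_disjoint_Ico_consecutive _ _ _)),
      ← cnt_eq, ← cnt_eq]
    push_cast
    linarith [h (c0 + n * q)]

/-- either the expected number of hits, or a small rational approximation -/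
lemma ord {v Z D Y Y' τ : ℕ} (hv : 1 ≤ v) (hD : 0 < D) (h1 : D ≤ Z * v ^ 6)
    (h2 : Z * v ^ 4 ≤ 2 * Y) (h3 : Y ≤ Y') (h4 : (Y' : ℝ) ≤ Y * (2 + 2 / v)) (c0 : ℕ) :
    (cnt (Ico c0 (c0 + v ^ 7)) (Hit D Y Y' τ) : ℝ) ≤ v ^ 7 * (Y / D) * (1 + 11 / v) ∨
      ∃ α : ℕ, α ∈ Icc 1 (2 * v ^ 3) ∧ ∃ β ∈ Icc (-(Z : ℤ)) Z, (D : ℤ) ∣ (α : ℤ) * τ - β := by
  have D0 : (0 : ℝ) < D := by exact_mod_cast hD
  have v1 : (1 : ℝ) ≤ v := by exact_mod_cast hv
  obtain ⟨r, r1, r2⟩ := Real.exists_rat_abs_sub_le_and_den_le ((τ : ℝ) / D)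
    (n := v ^ 6) (by positivity)
  have q0 : (0 : ℝ) < r.den := by exact_mod_cast r.den_pos
  have r3 : |(((r.den : ℤ) * τ - r.num * D : ℤ) : ℝ)| * v ^ 6 ≤ D := by
    have e : (((r.den : ℤ) * τ - r.num * D : ℤ) : ℝ) = ((τ : ℝ) / D - r) * (r.den * D) := by
      rw [Rat.cast_def]
      push_cast
      field_simp
    rw [e, abs_mul, abs_of_pos (by positivity : (0 : ℝ) < r.den * D)]
    rw [le_div_iff₀ (by positivity)] at r1
    push_cast at r1
    have := abs_nonneg ((τ : ℝ) / D - r)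
    nlinarith [mul_nonneg this (mul_pos q0 D0).le]
  have r4 : |(r.den : ℤ) * τ - r.num * D| * v ^ 6 ≤ D := by exact_mod_cast r3
  by_cases hq : (v : ℝ) * D ≤ r.den * Y
  · left
    have hb : (r.den : ℤ) * |(r.den : ℤ) * τ - r.num * D| ≤ D := by
      refine le_trans ?_ r4
      rw [mul_comm]
      exact mul_le_mul_of_nonneg_left (by exact_mod_cast r2) (abs_nonneg _)
    have co : IsCoprime r.num (r.den : ℤ) := Int.isCoprime_iff_gcd_eq_one.2 r.reduced
    have a1 := blocks (block hD h3 co hb) c0 (v ^ 7 / r.den + 1)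
    have a2 : cnt (Ico c0 (c0 + v ^ 7)) (Hit D Y Y' τ) ≤
        cnt (Ico c0 (c0 + (v ^ 7 / r.den + 1) * r.den)) (Hit D Y Y' τ) := by
      refine cnt_mono fun n hn h => ⟨Ico_subset_Ico_right ?_ hn, h⟩
      have := Nat.lt_mul_div_succ (v ^ 7) r.den_pos
      rw [mul_comm] at this
      omega
    have a3 : (((v ^ 7 / r.den + 1 : ℕ)) : ℝ) ≤ v ^ 7 / r.den * (1 + 1 / v) := by
      have b1 : ((v ^ 7 / r.den : ℕ) : ℝ) ≤ (v : ℝ) ^ 7 / r.den := by
        have := Nat.cast_div_le (α := ℝ) (m := v ^ 7) (n := r.den)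
        rwa [Nat.cast_pow] at this
      have b2 : (r.den : ℝ) ≤ v ^ 6 := by exact_mod_cast r2
      have b3 : (1 : ℝ) ≤ v ^ 7 / r.den * (1 / v) := by
        rw [div_mul_div_comm, le_div_iff₀ (by positivity)]
        nlinarith
      push_cast
      linarith
    have a4 : (r.den : ℝ) * (Y' - Y) / D + 3 ≤ r.den * (Y / D) * (1 + 5 / v) := by
      have b1 : (3 : ℝ) ≤ r.den * (Y / D) * (3 / v) := by
        rw [← mul_div_assoc (r.den : ℝ), div_mul_div_comm, le_div_iff₀ (by positivity)]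
        nlinarith
      have b2 : (r.den : ℝ) * (Y' - Y) / D ≤ r.den * (Y / D) * (1 + 2 / v) := by
        rw [← mul_div_assoc, div_mul_eq_mul_div]
        refine div_le_div_of_nonneg_right ?_ D0.le
        nlinarith
      have b3 : (r.den : ℝ) * (Y / D) * (1 + 5 / v) =
          r.den * (Y / D) * (1 + 2 / v) + r.den * (Y / D) * (3 / v) := by ring
      linarith
    have a5 : (0 : ℝ) ≤ r.den * (Y' - Y) / D + 3 := by
      have : (0 : ℝ) ≤ Y' - Y := sub_nonneg.2 (by exact_mod_cast h3)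
      positivity
    have a6 := mul_le_mul a3 a4 a5 (by positivity)
    have a7 : (v : ℝ) ^ 7 / r.den * (1 + 1 / v) * (r.den * (Y / D) * (1 + 5 / v)) =
        v ^ 7 * (Y / D) * ((1 + 1 / v) * (1 + 5 / v)) := by
      field_simp
    have a8 : (1 + 1 / (v : ℝ)) * (1 + 5 / v) ≤ 1 + 11 / v := by
      have w0 : 0 < 1 / (v : ℝ) := by positivity
      have w1 : 1 / (v : ℝ) ≤ 1 := by rwa [div_le_one (by positivity)]
      rw [show 5 / (v : ℝ) = 5 * (1 / v) by ring, show 11 / (v : ℝ) = 11 * (1 / v) by ring]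
      nlinarith
    have a9 := mul_le_mul_of_nonneg_left a8 (by positivity : (0 : ℝ) ≤ v ^ 7 * (Y / D))
    have a10 : (cnt (Ico c0 (c0 + v ^ 7)) (Hit D Y Y' τ) : ℝ) ≤
      cnt (Ico c0 (c0 + (v ^ 7 / r.den + 1) * r.den)) (Hit D Y Y' τ) := by exact_mod_cast a2
    linarith
  · right
    have hq' : r.den * Y < v * D := by exact_mod_cast not_le.1 hq
    refine ⟨r.den, mem_Icc.2 ⟨r.den_pos, ?_⟩, r.den * τ - r.num * D, ?_, r.num, by ring⟩
    · by_contra hh
      have b1 : 2 * v ^ 3 * Y ≤ r.den * Y := Nat.mul_le_mul_right _ (by omega)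
      have b2 : v * D ≤ v * (Z * v ^ 6) := Nat.mul_le_mul_left _ h1
      have b3 : v ^ 3 * (Z * v ^ 4) ≤ v ^ 3 * (2 * Y) := Nat.mul_le_mul_left _ h2
      nlinarith
    · rw [mem_Icc, ← abs_le]
      have b1 : (D : ℤ) ≤ Z * v ^ 6 := by exact_mod_cast h1
      exact le_of_mul_le_mul_right (r4.trans b1) (by positivity)

end Pool.Agent.MP_6e51af_nt.H82
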