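import Pool.Agent.MP_6e51af_nt.H82.Core
import Pool.Agent.MP_c5bf7b_nt.H98.MRoot
import Pool.Agent.MP_c5bf7b_nt.H98.Small

/-! Intervals of length a power of the sieving level with a deficit of survivors. -/

set_option autoImplicit false

namespace Pool.Agent.MP_6e51af_nt.H82

open Finset Polynomial Pool.Agent.MP_c5bf7b_nt.H98

/-- no prime up to `z` divides `F(m)` -/
def Cand (F : ℤ[X]) (z m : ℕ) : Prop := ∀ p ∈ Nat.primesBelow (z + 1), ¬Rt F p m

/-- the density of the survivors -/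
noncomputable def VV (F : ℤ[X]) (z : ℕ) : ℝ :=
  ∏ p ∈ Nat.primesBelow (z + 1), (1 - (nroots F p : ℝ) / p)

lemma prim {F : ℤ[X]} (h : ¬∃ p : ℕ, p.Prime ∧ ∀ q : ℤ, (p : ℤ) ∣ F.eval q) : F.IsPrimitive := by
  intro r hr
  by_contra hu
  rw [Int.isUnit_iff_natAbs_eq] at hu
  obtain ⟨p, pp, hp⟩ := Nat.exists_prime_and_dvd hu
  refine h ⟨p, pp, fun q => (Int.natCast_dvd.2 hp).trans ?_⟩
  simpa using eval_dvd (x := q) hr

lemma mlow (F : ℤ[X]) (hF : 0 < F.natDegree) : ∃ C0, MLow (nroots F) C0 := by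
  obtain ⟨g, g1, -, g3⟩ := poly_factor F hF
  obtain ⟨C0, h⟩ := mertRoot g g3
  refine ⟨C0, fun a b ha hab => (h a b ha hab).trans (sum_le_sum fun p _ => ?_)⟩
  refine div_le_div_of_nonneg_right (Nat.cast_le.2 (card_le_card fun x hx => ?_))
    (Nat.cast_nonneg _)
  exact mem_filter.2 ⟨(mem_filter.1 hx).1, (mem_filter.1 hx).2.trans (eval_dvd g1)⟩

lemma extend (F : ℤ[X]) {Q P : Finset ℕ} (hP : ∀ p ∈ P, p.Prime) (hQ : Q ⊆ P)
    (hρ : ∀ p ∈ P, nroots F p ≤ p) (H : Finset ℕ) (a1 : ℕ) {B : ℝ}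
    (h : (cnt H (fun h => ∀ p ∈ Q, ¬Rt F p (a1 + h)) : ℝ) ≤
      B * ∏ p ∈ Q, (1 - (nroots F p : ℝ) / p)) :
    ∃ a, (cnt H (fun h => ∀ p ∈ P, ¬Rt F p (a + h)) : ℝ) ≤
      B * ∏ p ∈ P, (1 - (nroots F p : ℝ) / p) := by
  classical
  obtain ⟨a2, h2⟩ := greedy (P \ Q) (H.filter fun h => ∀ p ∈ Q, ¬Rt F p (a1 + h)) (nroots F)
    (rootSet F) (fun p hp => hP p (mem_sdiff.1 hp).1)
    fun p _ h _ => ⟨filter_subset _ _, rootSet_card F p h⟩
  have co : Nat.Coprime (∏ p ∈ Q, p) (∏ p ∈ P \ Q, p) :=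
    Nat.Coprime.prod_left fun p hp => Nat.Coprime.prod_right fun q hq =>
      (Nat.coprime_primes (hP p (hQ hp)) (hP q (mem_sdiff.1 hq).1)).2
        fun e => (mem_sdiff.1 hq).2 (e ▸ hp)
  obtain ⟨a, b1, b2⟩ := Nat.chineseRemainder co a1 a2
  refine ⟨a, ?_⟩
  rw [← prod_sdiff hQ, mul_comm (∏ p ∈ P \ Q, _), ← mul_assoc]
  rw [← cnt_eq, ← cnt_eq] at h2
  refine le_trans (Nat.cast_le.2 (cnt_mono fun n hn h3 => ⟨?_, fun p hp h4 => ?_⟩))
    (h2.trans (mul_le_mul_of_nonneg_right h (prod_nonneg fun p hp => ?_)))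
  · rw [mem_filter]
    exact ⟨hn, fun p hp h4 => h3 p (hQ hp) (Rt_per F p _ _
      ((b1.of_dvd (dvd_prod_of_mem (fun p => p) hp)).add_right n).symm h4)⟩
  · exact h3 p (mem_sdiff.1 hp).1 (Rt_per F p _ _
      ((b2.of_dvd (dvd_prod_of_mem (fun p => p) hp)).add_right n).symm (rootSet_dvd F p n a2 h4))
  · have h5 := (mem_sdiff.1 hp).1
    exact sub_nonneg.2 ((div_le_one (Nat.cast_pos.2 (hP p h5).pos)).2
      (Nat.cast_le.2 (hρ p h5)))

lemma nroots_le (F : ℤ[X]) (p : ℕ) : nroots F p ≤ p :=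
  (card_filter_le _ _).trans (card_range p).le

theorem irr (F : ℤ[X]) (hF : 0 < F.natDegree) (hp' : F.IsPrimitive) {U : ℕ} (hU : 1 ≤ U) :
    ∃ δ : ℝ, 0 < δ ∧ ∃ y0 : ℕ, ∀ y z : ℕ, y0 ≤ y → y ≤ z ^ U →
      ∃ a : ℕ, (cnt (Ico y (y + y)) (fun h => Cand F z (a + h)) : ℝ) ≤ (1 - δ) * y * VV F z := by
  classical
  obtain ⟨C0, hC⟩ := mlow F hF
  set d := F.natDegree with hd
  set Λ := Real.exp (|C0| + 1) with hΛ
  have Λ1 : 1 ≤ Λ := Real.one_le_exp (by positivity)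
  set M := 2 * ⌈U * Λ⌉₊ + 1 with hM
  set J := ⌈32 * (M + 1) * Λ⌉₊ with hJ
  have d0 : (0 : ℝ) < d := by exact_mod_cast hF
  set s : ℝ := min (1 / (J + 1)) (1 / (4 * d ^ (M + 1))) with hs
  have s0 : 0 < s := lt_min (by positivity) (by positivity)
  obtain ⟨δ, δ0, v0, hv0⟩ := core F hF (M := M) hF (nroots_le_deg F hp') ⟨⌈U * Λ⌉₊ + 1, by omega⟩ s0
    (by
      have : s ≤ 1 / (4 * d ^ (M + 1)) := min_le_right _ _
      rw [le_div_iff₀ (by positivity)] at this
      linarith)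
  set L0 : ℝ := 32 * (16 * M + 15) + 16 * v0 + d / s + 1 with hL0
  refine ⟨δ, δ0, ⌈Real.exp (U * (Λ * L0))⌉₊ + v0, fun y z hy hz => ?_⟩
  have U0 : (0 : ℝ) < U := by exact_mod_cast hU
  have y1 : Real.exp (U * (Λ * L0)) ≤ y := (Nat.le_ceil _).trans (Nat.cast_le.2 (by omega))
  have y0 : (0 : ℝ) < y := (Real.exp_pos _).trans_le y1
  set l := Real.log y / U with hl
  have l1 : L0 ≤ l / Λ := by
    rw [le_div_iff₀ (by positivity), hl, le_div_iff₀ U0]
    have := (Real.le_log_iff_exp_le y0).2 y1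
    linarith
  have ds : 0 < d / s := by positivity
  have M0 : (0 : ℝ) ≤ M := Nat.cast_nonneg _
  have v00 : (0 : ℝ) ≤ v0 := Nat.cast_nonneg _
  have l2 : 0 < l / Λ := by linarith
  have l0 : 0 < l := by
    have := mul_pos l2 (by linarith : 0 < Λ)
    rwa [div_mul_cancel₀ _ (by linarith)] at this
  have a1 := Real.add_one_le_exp (l / Λ)
  have m1 := hC (Real.exp (l / Λ)) (Real.exp l) (by linarith)
    (Real.exp_le_exp.2 (div_le_self l0.le Λ1))
  rw [Real.log_exp, Real.log_exp, div_div_cancel₀ l0.ne', hΛ, Real.log_exp, ← hΛ] at m1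
  set P0 := (Ioc ⌊Real.exp (l / Λ)⌋₊ ⌊Real.exp l⌋₊).filter Nat.Prime with hP0
  have mem : ∀ p ∈ P0, p.Prime ∧ Real.exp (l / Λ) < p ∧ (p : ℝ) ≤ Real.exp l := fun p hp => by
    obtain ⟨h1, h2⟩ := mem_filter.1 hp
    rw [mem_Ioc, Nat.floor_lt (Real.exp_pos _).le, Nat.le_floor_iff (Real.exp_pos _).le] at h1
    exact ⟨h2, h1⟩
  have J1 : 32 * (M + 1) * Λ ≤ J := Nat.le_ceil _
  have J0 : (0 : ℝ) < J := lt_of_lt_of_le (by positivity) J1
  obtain ⟨i, -, hi⟩ := exists_le_sum_fiber_of_maps_to_of_nsmul_le_sum (s := P0)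
    (t := range (J + 1)) (f := fun p : ℕ => ⌊J * Real.log p / l⌋₊)
    (w := fun p => (nroots F p : ℝ) / p) (b := 1 / (J + 1)) (fun p hp => by
      obtain ⟨h1, h2, h3⟩ := mem p hp
      have := (Real.log_le_iff_le_exp (Nat.cast_pos.2 h1.pos)).2 h3
      rw [mem_range, Nat.lt_succ_iff]
      refine Nat.floor_le_of_le ?_
      rw [div_le_iff₀ l0]
      gcongr) nonempty_range_add_one (by
      rw [card_range, nsmul_eq_mul]
      push_cast
      rw [mul_one_div_cancel (by positivity)]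
      linarith [le_abs_self C0])
  obtain ⟨Q, q0, q1, q2⟩ := sub_sum (S := (P0.filter fun p : ℕ => ⌊J * Real.log p / l⌋₊ = i).filter
    fun p => nroots F p ≠ 0) (x := fun p => (nroots F p : ℝ) / p) s0.le (fun p hp => by
      obtain ⟨h1, h2, h3⟩ := mem p (mem_filter.1 (mem_filter.1 hp).1).1
      have b1 : (nroots F p : ℝ) ≤ d := Nat.cast_le.2 (nroots_le_deg F hp' p h1)
      have b2 : d / s ≤ p := by linarith
      rw [div_le_iff₀ s0] at b2
      rw [div_le_iff₀ (Nat.cast_pos.2 h1.pos)]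
      linarith) (by
      rw [sum_filter_of_ne (p := fun p => nroots F p ≠ 0) fun p _ h h' => h (by rw [h']; simp)]
      exact (min_le_left _ _).trans hi)
  set w : ℝ := (i + 1) * l / J with hw
  have mq : ∀ p ∈ Q, p.Prime ∧ l / Λ < Real.log p ∧ (p : ℝ) ≤ Real.exp l ∧
      w - l / J ≤ Real.log p ∧ Real.log p < w ∧ nroots F p ≠ 0 := fun p hp => by
    obtain ⟨h0, h4⟩ := mem_filter.1 (q0 hp)
    obtain ⟨h0, h5⟩ := mem_filter.1 h0
    obtain ⟨h1, h2, h3⟩ := mem p h0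
    rw [Nat.floor_eq_iff (by have := Real.log_natCast_nonneg p; positivity), le_div_iff₀ l0,
      div_lt_iff₀ l0] at h5
    refine ⟨h1, (Real.lt_log_iff_exp_lt (Nat.cast_pos.2 h1.pos)).2 h2, h3, ?_, ?_, h4⟩
    · rw [hw, ← sub_div, div_le_iff₀ J0]
      linarith [h5.1]
    · rw [hw, lt_div_iff₀ J0]
      linarith [h5.2]
  obtain ⟨p0, hp0⟩ : Q.Nonempty := by
    rw [nonempty_iff_ne_empty]
    rintro rfl
    rw [sum_empty] at q1
    linarith
  have w1 : l / Λ < w := (mq p0 hp0).2.1.trans (mq p0 hp0).2.2.2.2.1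
  have w2 : l ≤ w * Λ := ((div_lt_iff₀ (by linarith)).1 w1).le
  set v := ⌈Real.exp (w / 16)⌉₊ with hv
  have v1 : Real.exp (w / 16) ≤ v := Nat.le_ceil _
  have v2 := Real.add_one_le_exp (w / 16)
  have v3 : (v : ℝ) ≤ 2 * Real.exp (w / 16) := by
    have := Nat.ceil_lt_add_one (Real.exp_pos (w / 16)).le
    linarith
  have vp : (0 : ℝ) < v := (Real.exp_pos _).trans_le v1
  have v4 : w / 16 ≤ Real.log v := (Real.le_log_iff_exp_le vp).2 v1
  have v5 : Real.log v ≤ 1 + w / 16 := by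
    have := Real.log_le_log vp v3
    rw [Real.log_mul two_ne_zero (Real.exp_pos _).ne', Real.log_exp] at this
    linarith [Real.log_two_lt_d9]
  obtain ⟨a, ha⟩ := hv0 v y (Nat.cast_le.1 (by linarith : (v0 : ℝ) ≤ v)) (by omega) (by
      have b1 : (y : ℝ) ≤ v ^ (16 * M + 6) := by
        rw [← Real.log_le_log_iff y0 (by positivity), Real.log_pow]
        have b2 : Real.log y = U * l := by rw [hl]; field_simp
        have b3 : U * Λ ≤ M := by
          have := Nat.le_ceil (U * Λ)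
          have b4 : (0 : ℝ) ≤ ⌈U * Λ⌉₊ := Nat.cast_nonneg _
          rw [hM]
          push_cast
          linarith
        have b5 := mul_le_mul_of_nonneg_left w2 U0.le
        have b6 := mul_le_mul_of_nonneg_left b3 (by linarith : 0 ≤ w)
        have b7 := mul_le_mul_of_nonneg_left v4 M0
        push_cast
        nlinarith
      have b2 : y ≤ v ^ (16 * M + 6) := by exact_mod_cast b1
      exact (Nat.mul_le_mul_left _ b2).trans (le_of_eq (by ring))) Q (fun p hp => by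
      obtain ⟨h1, h2, h3, h4, h5, h6⟩ := mq p hp
      have pp : (0 : ℝ) < p := Nat.cast_pos.2 h1.pos
      refine ⟨h1, ?_, ?_, Nat.pos_of_ne_zero h6⟩
      · have : (p : ℝ) ≤ v ^ 16 := by
          rw [← Real.log_le_log_iff pp (by positivity), Real.log_pow]
          push_cast
          linarith
        exact_mod_cast this
      · have : (v : ℝ) ^ (16 * M + 15) ≤ p ^ (M + 1) := by
          rw [← Real.log_le_log_iff (by positivity) (by positivity), Real.log_pow, Real.log_pow]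
          have b1 : (M + 1) * (l / J) ≤ w / 32 := by
            rw [← mul_div_assoc, div_le_iff₀ J0]
            have := mul_le_mul_of_nonneg_left J1 (by linarith : 0 ≤ w)
            nlinarith
          have b2 := mul_le_mul_of_nonneg_left v5 (by positivity : (0 : ℝ) ≤ 16 * M + 15)
          have b3 := mul_le_mul_of_nonneg_left h4 (by positivity : (0 : ℝ) ≤ M + 1)
          push_cast
          nlinarith
        exact_mod_cast this) q1 q2
  refine extend F (fun p hp => Nat.prime_of_mem_primesBelow hp) (fun p hp => ?_)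
    (fun p _ => nroots_le F p) _ a ha
  obtain ⟨h1, -, h3, -⟩ := mq p hp
  refine Nat.mem_primesBelow.2 ⟨Nat.lt_succ_of_le ((Nat.pow_le_pow_iff_left
    (by omega : U ≠ 0)).1 (le_trans ?_ hz)), h1⟩
  have : (p : ℝ) ^ U ≤ y := by
    refine (pow_le_pow_left₀ (Nat.cast_nonneg _) h3 U).trans (le_of_eq ?_)
    rw [← Real.exp_nat_mul, hl, mul_div_cancel₀ _ U0.ne', Real.exp_log y0]
  exact_mod_cast this

end Pool.Agent.MP_6e51af_nt.H82
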