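import Pool.Agent.MP_6e51af_nt.H82.Irr

/-! Facts about the survivors of the sieve. -/

set_option autoImplicit false

namespace Pool.Agent.MP_6e51af_nt.H82

open Finset Polynomial Pool.Agent.MP_c5bf7b_nt.H98

lemma nroots_lt {F : ℤ[X]} (h : ¬∃ p : ℕ, p.Prime ∧ ∀ q : ℤ, (p : ℤ) ∣ F.eval q) (p : ℕ)
    (hp : p.Prime) : nroots F p < p := by
  refine lt_of_le_of_ne (nroots_le F p) fun e => h ⟨p, hp, fun q => ?_⟩
  have a1 : ((range p).filter fun x : ℕ => (p : ℤ) ∣ F.eval (x : ℤ)) = range p :=
    eq_of_subset_of_card_le (filter_subset _ _) (by rw [card_range]; exact e.ge)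
  have p0 : (0 : ℤ) < p := by exact_mod_cast hp.pos
  have a2 := Int.emod_nonneg q p0.ne'
  have a3 := Int.emod_lt_of_pos q p0
  have a4 : (q % p).toNat ∈ range p := mem_range.2 (by omega)
  rw [← a1, mem_filter, Int.toNat_of_nonneg a2] at a4
  exact dvd_eval_congr F p _ _ (Int.dvd_self_sub_emod) a4.2

variable {F : ℤ[X]}

lemma VV_pos (h : ∀ p : ℕ, p.Prime → nroots F p < p) (t : ℕ) : 0 < VV F t :=
  prod_pos fun p hp => by
    have pp := Nat.prime_of_mem_primesBelow hp
    exact sub_pos.2 ((div_lt_one (Nat.cast_pos.2 pp.pos)).2 (Nat.cast_lt.2 (h p pp)))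

lemma VV_le (h : ∀ p : ℕ, p.Prime → nroots F p < p) (t : ℕ) : VV F t ≤ 1 :=
  prod_le_one (fun p hp => by
    have pp := Nat.prime_of_mem_primesBelow hp
    exact sub_nonneg.2 ((div_le_one (Nat.cast_pos.2 pp.pos)).2 (Nat.cast_le.2 (h p pp).le)))
    fun p _ => sub_le_self _ (by positivity)

lemma cand_per (F : ℤ[X]) (t : ℕ) : Per (primorial t) (Cand F t) :=
  per_all (B := fun p m => ¬Rt F p m) fun p _ => (Rt_per F p).not

lemma cand_count (F : ℤ[X]) (t u L : ℕ) :
    ((L : ℝ) - primorial t) * VV F t ≤ cnt (Ico u (u + L)) (Cand F t) := by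
  classical
  have a1 := primes_count (S := Nat.primesBelow (t + 1))
    (fun p hp => Nat.prime_of_mem_primesBelow hp) (B := fun p m => ¬Rt F p m)
    (fun p _ => (Rt_per F p).not) (ρ := fun p => p - nroots F p) (fun p _ => by
      have := card_filter_add_card_filter_not (s := range p) (Rt F p)
      rw [← cnt_eq, ← cnt_eq, Rt_cnt, card_range] at this
      omega) u L
  have a2 : ∀ p ∈ Nat.primesBelow (t + 1),
      ((p - nroots F p : ℕ) : ℝ) = p * (1 - (nroots F p : ℝ) / p) := fun p hp => by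
    have pp : (0 : ℝ) < p := Nat.cast_pos.2 (Nat.prime_of_mem_primesBelow hp).pos
    rw [Nat.cast_sub (nroots_le F p)]
    field_simp
  have a3 : ∏ p ∈ Nat.primesBelow (t + 1), ((p - nroots F p : ℕ) : ℝ) / p = VV F t :=
    prod_congr rfl fun p hp => by
      rw [a2 p hp, mul_div_cancel_left₀ _
        (Nat.cast_pos.2 (Nat.prime_of_mem_primesBelow hp).pos).ne']
  rw [a3, prod_congr rfl a2, prod_mul_distrib, ← Nat.cast_prod (fun p => p)] at a1
  have a4 := (abs_le.1 a1).1
  have e1 : ∏ p ∈ Nat.primesBelow (t + 1), p = primorial t := rfl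
  rw [e1, ← VV] at a4
  have e2 : cnt (Ico u (u + L)) (Cand F t) =
    cnt (Ico u (u + L)) fun n => ∀ p ∈ Nat.primesBelow (t + 1), ¬Rt F p n := rfl
  rw [e2]
  linarith

open Classical in
lemma stretch (h : ∀ p : ℕ, p.Prime → nroots F p < p) {T : ℕ → ℕ} (hT : Monotone T) (n : ℕ) :
    ∀ u v : ℕ, u ≤ v → T v ≤ T u + n → (v : ℝ) - u - (n + 1) * 4 ^ T v ≤
      ∑ m ∈ Ico u v, if Cand F (T m) m then 1 / VV F (T m) else 0 := by
  have base : ∀ u v w : ℕ, u ≤ v → v ≤ w → (∀ m ∈ Ico u v, T m = T u) → (v : ℝ) - u - 4 ^ T w ≤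
      ∑ m ∈ Ico u v, if Cand F (T m) m then 1 / VV F (T m) else 0 := by
    intro u v w huv hvw hc
    obtain ⟨L, rfl⟩ := Nat.exists_eq_add_of_le huv
    rw [sum_congr rfl fun m hm => by rw [hc m hm], ← sum_filter, sum_const, nsmul_eq_mul,
      ← cnt_eq, mul_one_div, le_div_iff₀ (VV_pos h _)]
    refine le_trans (mul_le_mul_of_nonneg_right ?_ (VV_pos h _).le) (cand_count F _ u L)
    have : (primorial (T u) : ℝ) ≤ 4 ^ T w := by
      exact_mod_cast (primorial_le_four_pow _).trans
        (Nat.pow_le_pow_right (by norm_num) (hT (by omega)))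
    push_cast
    linarith
  induction n with
  | zero =>
    intro u v huv h1
    have := base u v v huv le_rfl fun m hm =>
      le_antisymm ((hT (mem_Ico.1 hm).2.le).trans h1) (hT (mem_Ico.1 hm).1)
    simpa using this
  | succ n ih =>
    intro u v huv h1
    have p4 : (0 : ℝ) ≤ 4 ^ T v := by positivity
    by_cases h2 : T v ≤ T u + n
    · have := ih u v huv h2
      push_cast
      linarith
    · have ex : ∃ m, T u < T m := ⟨v, by omega⟩
      have b1 := Nat.find_spec ex
      have b2 : Nat.find ex ≤ v := Nat.find_min' ex (by omega)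
      have b3 : u ≤ Nat.find ex := by
        by_contra hh
        have := hT (not_le.1 hh).le
        omega
      have c1 := base u _ v b3 b2 fun m hm =>
        le_antisymm (not_lt.1 (Nat.find_min ex (mem_Ico.1 hm).2)) (hT (mem_Ico.1 hm).1)
      have c2 := ih _ v b2 (by omega)
      rw [← sum_Ico_consecutive _ b3 b2]
      push_cast
      linarith

lemma VV_low (h : ∀ p : ℕ, p.Prime → nroots F p < p) {d : ℕ}
    (hd : ∀ p : ℕ, p.Prime → nroots F p ≤ d) :
    ∃ C : ℝ, ∀ t : ℕ, 3 ≤ t → Real.exp (-(C + Real.log t / 2)) ≤ VV F t := by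
  set W := ⌈Real.exp (96 * d + 1)⌉₊ with hW
  have W1 : Real.exp (96 * d + 1) ≤ W := Nat.le_ceil _
  have W0 : (0 : ℝ) < W := (Real.exp_pos _).trans_le W1
  have W2 : 96 * d + 1 ≤ Real.log W := (Real.le_log_iff_exp_le W0).2 W1
  have W3 := Real.add_one_le_exp (96 * (d : ℝ) + 1)
  have d0 : (0 : ℝ) ≤ d := Nat.cast_nonneg _
  refine ⟨(W + 1) * Real.log W, fun t ht => ?_⟩
  have t3 : (3 : ℝ) ≤ t := by exact_mod_cast ht
  have l1 : 1 ≤ Real.log t := by
    rw [Real.le_log_iff_exp_le (by linarith)]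
    linarith [Real.exp_one_lt_d9]
  have a1 := MR.log_sum (ε := 1 / Real.log t) (by positivity) ((div_le_one (by linarith)).2 l1)
    (Nat.primesBelow (t + 1)) fun p hp => Nat.prime_of_mem_primesBelow hp
  have a2 : ∏ p ∈ Nat.primesBelow (t + 1), Real.exp (-((if p ∈ range (W + 1) then Real.log W
      else 0) + Real.log p * (p : ℝ) ^ (-(1 + 1 / Real.log t)) / 16)) ≤ VV F t := by
    refine prod_le_prod (fun _ _ => (Real.exp_pos _).le) fun p hp => ?_
    obtain ⟨p1, pp⟩ := Nat.mem_primesBelow.1 hp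
    have p0 : (0 : ℝ) < p := Nat.cast_pos.2 pp.pos
    have lp := Real.log_natCast_nonneg p
    split_ifs with c
    · have b1 : (p : ℝ) ≤ W := by exact_mod_cast Nat.lt_succ_iff.1 (mem_range.1 c)
      have b2 : (nroots F p : ℝ) + 1 ≤ p := by exact_mod_cast h p pp
      calc _ ≤ Real.exp (-Real.log W) := Real.exp_le_exp.2 (by
            have : 0 ≤ Real.log p * (p : ℝ) ^ (-(1 + 1 / Real.log t)) / 16 := by positivity
            linarith)
        _ = 1 / W := by rw [Real.exp_neg, Real.exp_log W0, one_div]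
        _ ≤ 1 / p := one_div_le_one_div_of_le p0 b1
        _ ≤ _ := by
            rw [le_sub_iff_add_le, ← add_div, div_le_one p0]
            linarith
    · have b1 : (W : ℝ) ≤ p := by
        have := mem_range.not.1 c
        exact_mod_cast (by omega : W ≤ p)
      have b2 : 96 * d + 1 ≤ Real.log p := W2.trans (Real.log_le_log W0 b1)
      have b3 : 1 / 3 * (1 / p) ≤ (p : ℝ) ^ (-(1 + 1 / Real.log t)) := by
        rw [neg_add, Real.rpow_add p0, Real.rpow_neg_one, mul_comm, one_div (p : ℝ)]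
        refine mul_le_mul_of_nonneg_left ?_ (by positivity)
        have b4 : Real.log p ≤ Real.log t :=
          Real.log_le_log p0 (by exact_mod_cast Nat.lt_succ_iff.1 p1)
        rw [Real.rpow_def_of_pos p0]
        refine le_trans ?_ (Real.exp_le_exp.2 (show -1 ≤ _ by
          rw [mul_neg, neg_le_neg_iff, mul_one_div]
          exact (div_le_one (by linarith)).2 b4))
        rw [Real.exp_neg, one_div]
        exact inv_anti₀ (Real.exp_pos _) (by linarith [Real.exp_one_lt_d9])
      have b5 : (nroots F p : ℝ) / p ≤ d * (1 / p) := by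
        rw [mul_one_div]
        exact div_le_div_of_nonneg_right (Nat.cast_le.2 (hd p pp)) p0.le
      have b6 : (d : ℝ) * (1 / p) ≤ 1 / 2 := by
        rw [mul_one_div, div_le_iff₀ p0]
        linarith
      have b7 : (0 : ℝ) ≤ d * (1 / p) := by positivity
      have b8 := mul_le_mul b2 b3 (by positivity) lp
      have b9 : (0 : ℝ) ≤ 1 / p := by positivity
      have b10 := Real.add_one_le_exp (2 * (d * (1 / p : ℝ)))
      calc _ ≤ Real.exp (-(2 * (d * (1 / p : ℝ)))) := Real.exp_le_exp.2 (by nlinarith)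
        _ ≤ 1 - d * (1 / p) := by
            rw [Real.exp_neg, inv_le_iff_one_le_mul₀ (Real.exp_pos _)]
            nlinarith
        _ ≤ _ := by linarith
  refine le_trans ?_ a2
  rw [← Real.exp_sum, Real.exp_le_exp, sum_neg_distrib, neg_le_neg_iff, sum_add_distrib,
    ← sum_filter, sum_const, nsmul_eq_mul, ← sum_div]
  have a3 : (((Nat.primesBelow (t + 1)).filter fun p => p ∈ range (W + 1)).card : ℝ) ≤ W + 1 := by
    have := card_le_card (s := (Nat.primesBelow (t + 1)).filter fun p => p ∈ range (W + 1))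
      (t := range (W + 1)) fun p hp => (mem_filter.1 hp).2
    rw [card_range] at this
    exact_mod_cast this
  have a4 := mul_le_mul_of_nonneg_right a3 (by linarith : 0 ≤ Real.log W)
  rw [one_div_mul_eq_div, div_le_iff₀ (by linarith)] at a1
  linarith

/-- a window with few survivors that starts at a survivor -/
lemma start (h : ∀ p : ℕ, p.Prime → nroots F p < p) {t y a : ℕ} {B : ℝ}
    (ha : (cnt (Ico y (y + y)) (fun h => Cand F t (a + h)) : ℝ) ≤ B) :
    ∃ q < primorial t, ∀ j, Cand F t (q + j * primorial t) ∧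
      (cnt (Ioc (q + j * primorial t) (q + j * primorial t + y)) (Cand F t) : ℝ) ≤ B := by
  classical
  set P := primorial t with hP
  have P0 : 0 < P := primorial_pos t
  have per := cand_per F t
  obtain ⟨m0, m1, m2⟩ : ∃ m ∈ Ico (a + y) (a + y + 2 * P), Cand F t m := by
    have a1 := cand_count F t (a + y) (2 * P)
    have a2 : (0 : ℝ) < ((2 * P : ℕ) - P) * VV F t := by
      refine mul_pos ?_ (VV_pos h t)
      have : (0 : ℝ) < P := Nat.cast_pos.2 P0
      push_cast
      linarith
    have a3 := Nat.cast_pos.1 (a2.trans_le a1)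
    rw [cnt_eq] at a3
    obtain ⟨m, hm⟩ := card_pos.1 a3
    exact ⟨m, mem_filter.1 hm⟩
  rw [mem_Ico] at m1
  set n := a + y + 2 * P - 1 with hn
  set q := Nat.findGreatest (Cand F t) n with hq
  have q1 : Cand F t q := Nat.findGreatest_spec (m := m0) (by omega) m2
  have q2 : q ≤ n := Nat.findGreatest_le n
  have q3 : ∀ m, q < m → Cand F t m → n < m := fun m h1 h2 => by
    by_contra hh
    exact Nat.findGreatest_is_greatest h1 (by omega) h2
  have e : ∀ j i, q % P + j * P + i ≡ q + i [MOD P] := fun j i =>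
    Nat.ModEq.add_right i ((Nat.add_mul_mod_self_right _ _ _).trans (Nat.mod_mod _ _))
  refine ⟨q % P, Nat.mod_lt _ P0, fun j => ⟨per _ _ (e j 0).symm q1, le_trans ?_ ha⟩⟩
  rw [Nat.cast_le, cnt_eq, cnt_eq]
  refine card_le_card_of_injOn (fun m => m - (q % P + j * P) + q - 2 * P - a) (fun m hm => ?_)
    fun m hm m' hm' e' => ?_
  · obtain ⟨b1, b2⟩ := mem_filter.1 hm
    rw [mem_Ioc] at b1
    obtain ⟨i, rfl⟩ := Nat.exists_eq_add_of_le b1.1.le
    have b3 := per _ _ (e j i) b2
    have b4 := q3 _ (by omega) b3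
    refine mem_filter.2 ⟨mem_Ico.2 (by simp only; omega), per _ _ ?_ b3⟩
    rw [show q + i = a + (q % P + j * P + i - (q % P + j * P) + q - 2 * P - a) + 2 * P by omega]
    exact Nat.add_mul_mod_self_right _ _ _
  · have key : ∀ m ∈ (Ioc (q % P + j * P) (q % P + j * P + y)).filter (Cand F t),
        n < m - (q % P + j * P) + q ∧ q % P + j * P < m := fun m hm => by
      obtain ⟨b1, b2⟩ := mem_filter.1 hm
      rw [mem_Ioc] at b1
      obtain ⟨i, rfl⟩ := Nat.exists_eq_add_of_le b1.1.le
      have b4 := q3 _ (by omega) (per _ _ (e j i) b2)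
      omega
    have c1 := key m hm
    have c2 := key m' hm'
    simp only at e'
    omega

end Pool.Agent.MP_6e51af_nt.H82
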