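import Pool.Agent.MP_6e51af_nt.H82.ModA
import Pool.Agent.MP_6e51af_nt.H39.Prob

/-! Asymptotic estimates in the model. -/

set_option autoImplicit false

namespace Pool.Agent.MP_6e51af_nt.H82

open Finset Polynomial Filter Real Topology Pool.Agent.MP_c5bf7b_nt.H98
open Pool.Agent.MP_6e51af_nt.H39

/-- the hypotheses on the probabilities -/
structure Mod (F : ℤ[X]) (k : ℕ) (c θ : ℝ) (T : ℕ → ℕ) (r : ℕ → ℝ) : Prop where
  lt : ∀ p : ℕ, p.Prime → nroots F p < p
  mono : Monotone T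
  low : ∀ᶠ m : ℕ in atTop, log m ^ θ ≤ T m
  up : Tendsto (fun m : ℕ => (T m : ℝ) / log m) atTop (𝓝 0)
  p0 : ∀ m, 0 ≤ r m
  p1 : ∀ m, r m ≤ 1
  z : ∀ m, ¬Cand F (T m) m → r m = 0
  lim : ∀ ε : ℝ, 0 < ε → ∀ᶠ m : ℕ in atTop,
    Cand F (T m) m → |r m * VV F (T m) * log m ^ k - c| ≤ ε

variable {F : ℤ[X]} {k : ℕ} {c θ : ℝ} {T : ℕ → ℕ} {r : ℕ → ℝ}

lemma ev_exp {a : ℝ} (ha : 0 < a) (M : ℝ) (j : ℕ) :
    ∀ᶠ x : ℕ in atTop, M * log x ^ j ≤ exp (a * log x) := by
  have h1 : Tendsto (fun x : ℕ => a * log x) atTop atTop :=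
    (tendsto_log_atTop.comp tendsto_natCast_atTop_atTop).const_mul_atTop ha
  filter_upwards [((tendsto_exp_div_pow_atTop j).comp h1).eventually_ge_atTop (M / a ^ j),
    ev_log 1] with x h2 h3
  simp only [Function.comp] at h2
  rw [div_le_div_iff₀ (by positivity) (by positivity), mul_pow] at h2
  exact le_of_mul_le_mul_right (by linarith) (by positivity : 0 < a ^ j)

lemma Mod.ev_T (h : Mod F k c θ T r) {η : ℝ} (hη : 0 < η) :
    ∀ᶠ x : ℕ in atTop, (T x : ℝ) ≤ η * log x := by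
  filter_upwards [h.up.eventually_le_const hη, ev_log 1] with x h1 h2
  rwa [div_le_iff₀ (by linarith)] at h1

lemma log_two_mul {x : ℕ} (h : 1 ≤ log (x : ℝ)) : log ((2 * x : ℕ) : ℝ) ≤ log x + 1 := by
  have : (x : ℝ) ≠ 0 := by
    rintro h0
    rw [h0, log_zero] at h
    linarith
  push_cast
  rw [log_mul two_ne_zero this]
  linarith [log_two_lt_d9]

lemma Mod.ev_T2 (h : Mod F k c θ T r) {η : ℝ} (hη : 0 < η) :
    ∀ᶠ x : ℕ in atTop, (T (2 * x) : ℝ) ≤ η * log x := by
  have t : Tendsto (fun x : ℕ => 2 * x) atTop atTop := tendsto_id.const_mul_atTop' two_pos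
  filter_upwards [t.eventually (h.ev_T (half_pos hη)), ev_log 1] with x h1 h2
  have := log_two_mul h2
  nlinarith

lemma Mod.mean (h : Mod F k c θ T r) (hc : 0 < c) {ε : ℝ} (h0 : 0 < ε) (h1 : ε ≤ 1) :
    ∀ᶠ x : ℕ in atTop, (1 - ε) * c * x / log x ^ k ≤ ∑ m ∈ range x, r m := by
  classical
  obtain ⟨m0, hm0⟩ := eventually_atTop.1 ((h.lim (ε / 2 * c) (by positivity)).and (ev_log 1))
  filter_upwards [h.ev_T (η := 1 / 6) (by norm_num), ev_log 1, eventually_ge_atTop m0,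
    ev_exp (a := 1 / 2) (by norm_num) (m0 + 2 / ε) 0, ev_exp (a := 1 / 2) (by norm_num) (4 / ε) 0]
    with x a1 a2 a3 a4 a5
  have x0 : (0 : ℝ) < x := by
    rcases Nat.eq_zero_or_pos x with rfl | h
    · simp at a2
      linarith
    · exact_mod_cast h
  have b1 := stretch h.lt h.mono (T x) m0 x a3 (by omega)
  have b2 : ((T x : ℝ) + 1) * 4 ^ T x ≤ exp (1 / 2 * log x) := by
    have c1 : (T x : ℝ) + 1 ≤ exp (T x) := add_one_le_exp _
    have c2 : (4 : ℝ) ^ T x ≤ exp 2 ^ T x := pow_le_pow_left₀ (by norm_num) (by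
      have := quadratic_le_exp_of_nonneg (x := 2) (by norm_num)
      linarith) _
    rw [← exp_nat_mul] at c2
    refine (mul_le_mul c1 c2 (by positivity) (by positivity)).trans ?_
    rw [← exp_add, exp_le_exp]
    linarith
  have b3 : exp (1 / 2 * log x) * exp (1 / 2 * log x) = x := by
    rw [← exp_add, ← add_mul, add_halves, one_mul, exp_log x0]
  have b4 : ∑ m ∈ Ico m0 x, (1 - ε / 2) * c / log x ^ k *
      (if Cand F (T m) m then 1 / VV F (T m) else 0) ≤ ∑ m ∈ Ico m0 x, r m := by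
    refine sum_le_sum fun m hm => ?_
    obtain ⟨m1, m2⟩ := mem_Ico.1 hm
    split_ifs with c1
    · obtain ⟨c2, c3⟩ := hm0 m m1
      have c4 := (abs_le.1 (c2 c1)).1
      have c5 := VV_pos h.lt (T m)
      have c6 : log (m : ℝ) ^ k ≤ log x ^ k := by
        refine pow_le_pow_left₀ (by linarith) (log_le_log ?_ (by exact_mod_cast m2.le)) _
        rcases Nat.eq_zero_or_pos m with rfl | h
        · simp at c3
          linarith
        · exact_mod_cast h
      have c7 := mul_le_mul_of_nonneg_left c6 (mul_nonneg (h.p0 m) c5.le)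
      rw [div_mul_div_comm, div_le_iff₀ (by positivity)]
      linarith
    · rw [mul_zero]
      exact h.p0 m
  rw [← mul_sum] at b4
  have b5 : ∑ m ∈ Ico m0 x, r m ≤ ∑ m ∈ range x, r m := sum_le_sum_of_subset_of_nonneg
    (fun m hm => mem_range.2 (mem_Ico.1 hm).2) fun m _ _ => h.p0 m
  refine le_trans ?_ (b4.trans b5)
  have b6 : (1 - ε / 2) * x ≤ x - m0 - ((T x : ℝ) + 1) * 4 ^ T x := by
    rw [pow_zero, mul_one] at a4 a5
    have c1 : 0 < 2 / ε := by positivity
    rw [div_le_iff₀ h0] at a5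
    have := mul_le_mul_of_nonneg_right a5 (exp_pos (1 / 2 * log x)).le
    nlinarith
  have b7 : 0 ≤ (1 - ε / 2) * c / log x ^ k := by
    have : 0 ≤ 1 - ε / 2 := by linarith
    positivity
  refine le_trans ?_ (mul_le_mul_of_nonneg_left (b6.trans b1) b7)
  rw [div_mul_eq_mul_div]
  refine div_le_div_of_nonneg_right ?_ (by positivity)
  nlinarith [mul_nonneg (mul_pos hc x0).le (sq_nonneg ε)]

lemma Mod.small (h : Mod F k c θ T r) (hθ : 0 < θ) (hk : 1 ≤ k) {d : ℕ}
    (hd : ∀ p : ℕ, p.Prime → nroots F p ≤ d) {ε : ℝ} (h0 : 0 < ε) :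
    ∀ᶠ m : ℕ in atTop, r m ≤ ε := by
  obtain ⟨C, hC⟩ := VV_low h.lt hd
  have t1 : Tendsto (fun m : ℕ => log (m : ℝ)) atTop atTop :=
    tendsto_log_atTop.comp tendsto_natCast_atTop_atTop
  filter_upwards [h.lim 1 one_pos, h.low, ((tendsto_rpow_atTop hθ).comp t1).eventually_ge_atTop 3,
    h.ev_T one_pos, ev_log 1, ev_log (((|c| + 1) * exp C / ε) ^ 2)] with m a1 a2 a3 a4 a5 a6
  by_cases c1 : Cand F (T m) m
  swap
  · rw [h.z m c1]
    exact h0.le
  have b1 := (abs_le.1 (a1 c1)).2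
  have b2 : (3 : ℝ) ≤ T m := le_trans a3 a2
  have b3 := hC (T m) (by exact_mod_cast b2)
  have b4 : log (T m : ℝ) ≤ log (log m) := log_le_log (by linarith) (by linarith)
  set s := exp (log (log (m : ℝ)) / 2) with hs
  have s0 : 0 < s := exp_pos _
  have s1 : s * s = log m := by rw [hs, ← exp_add, add_halves, exp_log (by linarith)]
  have b5 : 1 / (exp C * s) ≤ VV F (T m) := by
    refine le_trans ?_ b3
    rw [hs, ← exp_add, one_div, ← exp_neg, exp_le_exp]
    linarith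
  have b6 : (|c| + 1) * exp C / ε ≤ s := by
    refine (pow_le_pow_iff_left₀ (by positivity) s0.le two_ne_zero).1 ?_
    rwa [sq s, s1]
  have b7 : log (m : ℝ) ≤ log m ^ k := le_self_pow₀ a5 (by omega)
  have b8 := mul_le_mul b5 b7 (by linarith) (VV_pos h.lt _).le
  have b9 : 1 / (exp C * s) * log m = s / exp C := by
    rw [← s1]
    field_simp
  have b10 := mul_le_mul_of_nonneg_left b8 (h.p0 m)
  rw [b9, ← mul_assoc, ← mul_div_assoc, div_le_iff₀ (exp_pos C)] at b10
  rw [div_le_iff₀ h0] at b6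
  have b11 := mul_le_mul_of_nonneg_right
    (show r m * VV F (T m) * log m ^ k ≤ |c| + 1 by linarith [le_abs_self c]) (exp_pos C).le
  exact le_of_mul_le_mul_right (by linarith) s0

lemma flat (T : ℕ → ℕ) (x l n : ℕ) (h : T (x + n * l) < n) :
    ∃ i < n, T (x + i * l + l) ≤ T (x + i * l) := by
  by_contra hh
  push Not at hh
  have : ∀ i ≤ n, i ≤ T (x + i * l) := fun i => by
    induction i with
    | zero => omega
    | succ i ih =>
      intro hi
      have := hh i hi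
      have := ih (by omega)
      rw [add_mul, one_mul, ← add_assoc]
      omega
  have := this n le_rfl
  omega

lemma one_sub_ge {e t : ℝ} (h0 : 0 ≤ t) (he : 0 < e) (h1 : t ≤ e / (1 + e)) :
    exp (-((1 + e) * t)) ≤ 1 - t := by
  rw [le_div_iff₀ (by linarith)] at h1
  have := add_one_le_exp ((1 + e) * t)
  rw [exp_neg, inv_le_iff_one_le_mul₀ (exp_pos _)]
  have h2 : 0 ≤ 1 - t := by nlinarith
  nlinarith [mul_le_mul_of_nonneg_left this h2, mul_le_mul_of_nonneg_left h1 h0]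

end Pool.Agent.MP_6e51af_nt.H82
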