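import Pool.Agent.MP_6e51af_nt.H82.ModB

/-! Long empty windows in the model. -/

set_option autoImplicit false

namespace Pool.Agent.MP_6e51af_nt.H82

open Finset Polynomial Filter Real Topology Pool.Agent.MP_c5bf7b_nt.H98
open Pool.Agent.MP_6e51af_nt.H39

variable {F : ℤ[X]} {k : ℕ} {c θ : ℝ} {T : ℕ → ℕ} {r : ℕ → ℝ}

/-- length of the gap -/
noncomputable def gp (e c : ℝ) (k q : ℕ) : ℕ := ⌈(1 + e) * log q ^ (k + 1) / c⌉₊

lemma ev_two {e : ℝ} (he : 0 < e) (j : ℕ) :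
    ∀ᶠ x : ℕ in atTop, log ((2 * x : ℕ) : ℝ) ^ j ≤ (1 + e) * log x ^ j := by
  have t1 : Tendsto (fun m : ℕ => log (m : ℝ)) atTop atTop :=
    tendsto_log_atTop.comp tendsto_natCast_atTop_atTop
  have t2 : Tendsto (fun m : ℕ => (1 + (log (m : ℝ))⁻¹) ^ j) atTop (𝓝 ((1 + 0) ^ j)) :=
    (t1.inv_tendsto_atTop.const_add 1).pow j
  rw [add_zero, one_pow] at t2
  filter_upwards [t2.eventually_le_const (by linarith : 1 < 1 + e), ev_log 1] with x h1 h2
  refine le_trans ?_ (mul_le_mul_of_nonneg_right h1 (by positivity))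
  rw [← mul_pow]
  refine pow_le_pow_left₀ (log_natCast_nonneg _) ((log_two_mul h2).trans (le_of_eq ?_)) _
  field_simp

lemma num {e δ : ℝ} (δ0 : 0 < δ) (δ1 : δ ≤ 1) (he : e = δ / 10) :
    (1 + e) ^ 4 * (1 - δ) ≤ 1 - δ / 2 := by
  have d6 : (1 + e) ^ 2 ≤ 1 + 21 / 10 * e := by nlinarith
  have d7 : (1 + e) ^ 4 ≤ 1 + 5 * e := by
    have := pow_le_pow_left₀ (by positivity) d6 2
    rw [← pow_mul] at this
    nlinarith
  nlinarith

lemma Mod.one (h : Mod F k c θ T r) (hc : 0 < c) {δ e : ℝ} (δ0 : 0 < δ) (δ1 : δ ≤ 1)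
    (he : e = δ / 10) {x q t : ℕ} (a9 : 0 < x) (X2 : 2 ≤ log (x : ℝ))
    (a4 : log ((2 * x : ℕ) : ℝ) ^ (k + 1) ≤ (1 + e / 2) * log x ^ (k + 1))
    (hm0 : ∀ m, x ≤ m → (Cand F (T m) m → |r m * VV F (T m) * log m ^ k - c| ≤ e * c) ∧
      r m ≤ e / (1 + e))
    (y1 : (gp e c k (2 * x) : ℝ) ≤ (1 + e) ^ 2 * log x ^ (k + 1) / c) (c1 : x ≤ q)
    (c2 : q ≤ 2 * x) (Tc : ∀ m, q ≤ m → m ≤ q + gp e c k (2 * x) → T m = t) (c3 : Cand F t q)
    (c4 : (cnt (Ioc q (q + gp e c k (2 * x))) (Cand F t) : ℝ) ≤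
      (1 - δ) * gp e c k (2 * x) * VV F t) :
    c / (4 * log x ^ (k + 1)) * exp (-((1 - δ / 2) * log x)) ≤
      r q * ∏ m ∈ Ioc q (q + gp e c k q), (1 - r m) := by
  classical
  have e0 : 0 < e := by rw [he]; positivity
  have e1 : e ≤ 1 / 10 := by linarith
  set X := log (x : ℝ) with hX
  set y := gp e c k (2 * x) with hy
  have lm : ∀ {a b : ℕ}, 0 < a → a ≤ b → log (a : ℝ) ≤ log b := fun h1 h2 =>
    log_le_log (by exact_mod_cast h1) (by exact_mod_cast h2)
  have V0 := VV_pos h.lt t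
  have c5 : log (q : ℝ) ≤ log ((2 * x : ℕ) : ℝ) := lm (by omega) (by omega)
  have c6 : X ≤ log (q : ℝ) := lm a9 (by omega)
  refine mul_le_mul ?_ ?_ (exp_pos _).le (h.p0 q)
  · have d1 := (hm0 q (by omega)).1
    rw [Tc q (by omega) (by omega)] at d1
    have d2 := (abs_le.1 (d1 c3)).1
    have d3 : log (q : ℝ) ^ k ≤ 2 * X ^ (k + 1) := by
      have d4 : log (q : ℝ) ^ k ≤ log q ^ (k + 1) := pow_le_pow_right₀ (by linarith) (by omega)
      have d5 := pow_le_pow_left₀ (by linarith) c5 (k + 1)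
      have d6 := mul_le_mul_of_nonneg_right (show 1 + e / 2 ≤ 2 by linarith)
        (by positivity : 0 ≤ X ^ (k + 1))
      linarith
    have d7 := mul_le_mul (mul_le_mul_of_nonneg_left (VV_le h.lt t) (h.p0 q)) d3
      (by have := log_natCast_nonneg q; positivity) (by have := h.p0 q; positivity)
    have d8 := mul_le_mul_of_nonneg_right e1 hc.le
    rw [div_le_iff₀ (by positivity)]
    linarith
  · have d1 : gp e c k q ≤ y := Nat.ceil_le_ceil (by
      have := log_natCast_nonneg q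
      gcongr)
    have d2 : ∑ m ∈ Ioc q (q + gp e c k q), r m ≤ ∑ m ∈ Ioc q (q + y),
        if Cand F t m then (1 + e) * c / (VV F t * X ^ k) else 0 := by
      refine le_trans (sum_le_sum_of_subset_of_nonneg (Ioc_subset_Ioc_right (by omega))
        fun m _ _ => h.p0 m) (sum_le_sum fun m hm => ?_)
      obtain ⟨m1, m2⟩ := mem_Ioc.1 hm
      have d3 := Tc m (by omega) (by omega)
      split_ifs with c7
      · have d4 := (hm0 m (by omega)).1
        rw [d3] at d4
        have d5 := (abs_le.1 (d4 c7)).2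
        have d6 : X ^ k ≤ log (m : ℝ) ^ k := pow_le_pow_left₀ (by linarith) (lm a9 (by omega)) _
        have d7 := mul_le_mul_of_nonneg_left d6 (mul_nonneg (h.p0 m) V0.le)
        rw [le_div_iff₀ (by positivity)]
        linarith
      · exact (h.z m (d3 ▸ c7)).le
    rw [← sum_filter, sum_const, nsmul_eq_mul, ← cnt_eq] at d2
    have d3 : (1 + e) * ∑ m ∈ Ioc q (q + gp e c k q), r m ≤ (1 - δ / 2) * X := by
      have d4 := c4.trans (mul_le_mul_of_nonneg_right
        (mul_le_mul_of_nonneg_left y1 (sub_nonneg.2 δ1)) V0.le)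
      have d5 := d2.trans (mul_le_mul_of_nonneg_right d4 (by positivity))
      refine (mul_le_mul_of_nonneg_left d5 (by positivity)).trans ?_
      rw [show (1 + e) * ((1 - δ) * ((1 + e) ^ 2 * X ^ (k + 1) / c) * VV F t *
        ((1 + e) * c / (VV F t * X ^ k))) = (1 + e) ^ 4 * (1 - δ) * X by
          rw [pow_succ X k]; field_simp]
      exact mul_le_mul_of_nonneg_right (num δ0 δ1 he) (by linarith)
    calc _ ≤ exp (∑ m ∈ Ioc q (q + gp e c k q), -((1 + e) * r m)) := by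
          rw [sum_neg_distrib, ← mul_sum, exp_le_exp]
          linarith
      _ ≤ _ := by
          rw [exp_sum]
          exact prod_le_prod (fun _ _ => (exp_pos _).le) fun m hm =>
            one_sub_ge (h.p0 m) e0 (hm0 m (by have := mem_Ioc.1 hm; omega)).2

lemma Mod.win (h : Mod F k c θ T r) (hc : 0 < c) (hθ : 0 < θ) (hk : 1 ≤ k) {d : ℕ}
    (hd : ∀ p : ℕ, p.Prime → nroots F p ≤ d) {δ : ℝ} (δ0 : 0 < δ) (δ1 : δ ≤ 1) {U y0 : ℕ}
    (hU : (k + 2 : ℕ) ≤ θ * U) (hI : ∀ y z : ℕ, y0 ≤ y → y ≤ z ^ U →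
      ∃ a : ℕ, (cnt (Ico y (y + y)) (fun h => Cand F z (a + h)) : ℝ) ≤ (1 - δ) * y * VV F z) :
    ∀ᶠ x : ℕ in atTop, 1 ≤ ∑ q ∈ Ioc x (2 * x),
      r q * ∏ m ∈ Ioc q (q + gp (δ / 10) c k q), (1 - r m) := by
  classical
  set e := δ / 10 with he
  have e0 : 0 < e := by positivity
  obtain ⟨m0, hm0⟩ := eventually_atTop.1 ((h.lim (e * c) (by positivity)).and
    (h.small hθ hk hd (show 0 < e / (1 + e) by positivity)))
  filter_upwards [eventually_ge_atTop m0, h.low, h.ev_T2 (η := δ / 16) (by positivity),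
    ev_two (half_pos e0) (k + 1), ev_log (2 + 2 * c / e + c * y0 + 4 / c),
    ev_exp (a := δ / 8) (by positivity) 9 1, ev_exp one_pos 3 (k + 3),
    ev_exp (a := δ / 4) (by positivity) (4 / c) (k + 1), eventually_gt_atTop 0]
    with x a1 a2 a3 a4 a5 a6 a7 a8 a9
  have x0 : (0 : ℝ) < x := by exact_mod_cast a9
  set X := log (x : ℝ) with hX
  have u1 : 0 < 2 * c / e := by positivity
  have u2 : 0 ≤ c * y0 := by positivity
  have u3 : 0 < 4 / c := by positivity
  have X2 : 2 ≤ X := by linarith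
  have Xk : X ≤ X ^ (k + 1) := le_self_pow₀ (by linarith) (by omega)
  have lm : ∀ {a b : ℕ}, 0 < a → a ≤ b → log (a : ℝ) ≤ log b := fun h1 h2 =>
    log_le_log (by exact_mod_cast h1) (by exact_mod_cast h2)
  have X3 : X ≤ log ((2 * x : ℕ) : ℝ) := lm a9 (by omega)
  set y := gp e c k (2 * x) with hy
  have y1 : (y : ℝ) ≤ (1 + e) ^ 2 * X ^ (k + 1) / c := by
    have b1 : (y : ℝ) < (1 + e) * log ((2 * x : ℕ) : ℝ) ^ (k + 1) / c + 1 :=
      Nat.ceil_lt_add_one (by have := log_natCast_nonneg (2 * x); positivity)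
    have b2 : 2 * c / e ≤ X ^ (k + 1) := by linarith
    rw [div_le_iff₀ e0] at b2
    rw [div_add_one hc.ne', lt_div_iff₀ hc] at b1
    rw [le_div_iff₀ hc]
    have b3 := mul_le_mul_of_nonneg_left a4 (by linarith : 0 ≤ 1 + e)
    have b4 : 0 ≤ e * e * X ^ (k + 1) := by positivity
    nlinarith
  have y2 : y0 ≤ y := by
    have b1 : (1 + e) * log ((2 * x : ℕ) : ℝ) ^ (k + 1) / c ≤ y := Nat.le_ceil _
    have b2 : X ^ (k + 1) ≤ log ((2 * x : ℕ) : ℝ) ^ (k + 1) := pow_le_pow_left₀ (by linarith) X3 _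
    rw [div_le_iff₀ hc] at b1
    have b3 : c * y0 ≤ c * y := by nlinarith
    exact_mod_cast le_of_mul_le_mul_left b3 hc
  have y3 : (y : ℝ) ≤ X ^ (k + 2) := by
    refine y1.trans ?_
    have b1 : 4 / c ≤ X := by linarith
    rw [div_le_iff₀ hc] at b1 ⊢
    have b2 : (1 + e) ^ 2 ≤ 4 := by nlinarith
    have b3 : 0 ≤ X ^ (k + 1) := by positivity
    rw [pow_succ X (k + 1)]
    nlinarith
  set n := T (2 * x) + 1 with hn
  set l := x / n with hl
  have n1 : n * l ≤ x := Nat.mul_div_le x n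
  obtain ⟨i, i1, i2⟩ := flat T x l n (Nat.lt_succ_of_le (h.mono (by omega)))
  set x' := x + i * l with hx'
  have i3 : x' + l ≤ 2 * x := by
    have : (i + 1) * l ≤ n * l := Nat.mul_le_mul_right _ i1
    rw [add_mul, one_mul] at this
    omega
  set t := T x' with ht
  have Tc : ∀ m, x' ≤ m → m ≤ x' + l → T m = t := fun m h1 h2 =>
    le_antisymm ((h.mono h2).trans i2) (h.mono h1)
  obtain ⟨a, ha⟩ := hI y t y2 (by
    have b1 : X ^ θ ≤ t := a2.trans (Nat.cast_le.2 (h.mono (by omega)))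
    have b2 : X ^ (k + 2) ≤ (t : ℝ) ^ U := by
      refine le_trans ?_ (pow_le_pow_left₀ (by positivity) b1 U)
      rw [← rpow_natCast, ← rpow_natCast, ← rpow_mul (by linarith)]
      exact rpow_le_rpow_of_exponent_le (by linarith) hU
    exact_mod_cast y3.trans b2)
  obtain ⟨q0, q1, hq⟩ := start h.lt ha
  set P := primorial t with hP
  have P0 : 0 < P := primorial_pos t
  have P1 : (P : ℝ) ≤ exp (δ / 8 * X) := by
    have c1 : (P : ℝ) ≤ 4 ^ T (2 * x) := by
      exact_mod_cast (primorial_le_four_pow _).trans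
        (Nat.pow_le_pow_right (by norm_num) (h.mono ((Nat.le_add_right x' l).trans i3)))
    have c2 : (4 : ℝ) ^ T (2 * x) ≤ exp 2 ^ T (2 * x) := pow_le_pow_left₀ (by norm_num) (by
      have := quadratic_le_exp_of_nonneg (x := 2) (by norm_num)
      linarith) _
    rw [← exp_nat_mul] at c2
    exact c1.trans (c2.trans (exp_le_exp.2 (by linarith)))
  set R := ⌈exp ((1 - δ / 4) * X)⌉₊ with hR
  have R1 : (R + 1) * P + y ≤ l := by
    have c1 : (R : ℝ) + 1 ≤ 3 * exp ((1 - δ / 4) * X) := by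
      have := Nat.ceil_lt_add_one (exp_pos ((1 - δ / 4) * X)).le
      have : 1 ≤ exp ((1 - δ / 4) * X) := one_le_exp (by nlinarith)
      linarith
    have c2 := mul_le_mul c1 P1 (by positivity) (by positivity)
    have c3 : exp ((1 - δ / 4) * X) * exp (δ / 8 * X) * exp (δ / 8 * X) = x := by
      rw [← exp_add, ← exp_add, ← exp_log x0]
      congr 1
      ring
    have c4 := mul_le_mul_of_nonneg_left a6
      (by positivity : 0 ≤ exp ((1 - δ / 4) * X) * exp (δ / 8 * X))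
    rw [c3, pow_one] at c4
    rw [one_mul, exp_log x0] at a7
    have c5 : (n : ℝ) ≤ X := by
      rw [hn]
      push_cast
      nlinarith
    have c6 : ((R + 1) * P : ℝ) * n ≤ x / 3 := by
      have := mul_le_mul c2 c5 (by positivity) (by positivity)
      linarith
    have c7 : (y : ℝ) * n ≤ x / 3 := by
      have := mul_le_mul y3 c5 (by positivity) (by positivity)
      rw [← pow_succ] at this
      linarith
    rw [hl, Nat.le_div_iff_mul_le (by omega), ← Nat.cast_le (α := ℝ)]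
    push_cast
    linarith
  set f : ℕ → ℕ := fun j => q0 + (x' / P + 1 + j) * P with hf
  have f1 : ∀ j ∈ range R, x' < f j ∧ f j + y ≤ x' + l := fun j hj => by
    have c1 : x' / P * P ≤ x' := Nat.div_mul_le_self _ _
    have c2 := Nat.lt_div_mul_add (a := x') P0
    have c3 : (j + 1) * P ≤ R * P := Nat.mul_le_mul_right _ (mem_range.1 hj)
    simp only [hf, add_mul, one_mul] at c3 R1 ⊢
    omega
  have nn : ∀ q, 0 ≤ r q * ∏ m ∈ Ioc q (q + gp e c k q), (1 - r m) := fun q =>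
    mul_nonneg (h.p0 q) (prod_nonneg fun m _ => sub_nonneg.2 (h.p1 m))
  have f2 : ∀ j ∈ range R, c / (4 * X ^ (k + 1)) * exp (-((1 - δ / 2) * X)) ≤
      r (f j) * ∏ m ∈ Ioc (f j) (f j + gp e c k (f j)), (1 - r m) := fun j hj => by
    obtain ⟨c1, c2⟩ := f1 j hj
    obtain ⟨c3, c4⟩ := hq (x' / P + 1 + j)
    exact h.one hc δ0 δ1 he a9 X2 a4 (fun m hm => hm0 m (a1.trans hm)) y1 (by omega) (by omega)
      (fun m m1 m2 => Tc m (by omega) (by omega)) c3 c4
  have f3 := card_nsmul_le_sum _ _ _ f2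
  rw [card_range, nsmul_eq_mul, ← sum_image (f := fun q =>
    r q * ∏ m ∈ Ioc q (q + gp e c k q), (1 - r m)) (g := f) fun j _ j' _ e' => by
      have := Nat.eq_of_mul_eq_mul_right P0 (Nat.add_left_cancel e')
      omega] at f3
  refine le_trans ?_ (f3.trans (sum_le_sum_of_subset_of_nonneg (fun q hq' => ?_) fun q _ _ => nn q))
  · have c1 : exp ((1 - δ / 4) * X) ≤ R := Nat.le_ceil _
    refine le_trans ?_ (mul_le_mul_of_nonneg_right c1 (by positivity))
    rw [mul_left_comm, ← exp_add, show (1 - δ / 4) * X + -((1 - δ / 2) * X) = δ / 4 * X by ring]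
    refine le_trans (le_of_eq ?_) (mul_le_mul_of_nonneg_left a8 (by positivity))
    field_simp
  · obtain ⟨j, hj, rfl⟩ := mem_image.1 hq'
    have := f1 j hj
    exact mem_Ioc.2 (by omega)

lemma fin {p : ℕ → Prop} [DecidablePred p] (hc : 0 < c) {e : ℝ} (e0 : 0 < e) (e1 : e ≤ 1 / 10)
    (hA : ∀ᶠ x : ℕ in atTop, (1 - e / 4) * c * x / log x ^ k ≤ Nat.count p x)
    (hB : ∃ᶠ q : ℕ in atTop, p q ∧ ∀ m, p m → q < m → q + gp e c k q ≤ m) :
    {m | p m}.Infinite ∧ ∃ᶠ n : ℕ in atTop,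
      (Nat.nth p (n - 1) : ℝ) ^ (1 + (1 + e / 4) / (n : ℝ)) < Nat.nth p n := by
  have hi : {m | p m}.Infinite := Nat.frequently_atTop_iff_infinite.1 (hB.mono fun q hq => hq.1)
  refine ⟨hi, frequently_atTop.2 fun n0 => ?_⟩
  obtain ⟨q, ⟨q1, q2⟩, h1, h3, h4, h5, h6⟩ := (hB.and_eventually
    (hA.and ((ev_log (1 + 3 * c / e)).and ((ev_pow (4 / c ^ 2) ((k + 1) * 2)).and
    ((ev_pow (2 / c) (k + 1)).and (eventually_ge_atTop (Nat.nth p n0 + 1))))))).exists
  have a : n0 ≤ Nat.count p q := by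
    by_contra hlt
    have : Nat.nth p (Nat.count p q) ≤ Nat.nth p n0 :=
      Nat.nth_monotone hi (show Nat.count p q ≤ n0 by omega)
    rw [Nat.nth_count q1] at this
    omega
  refine ⟨Nat.count p q + 1, by omega, ?_⟩
  rw [Nat.add_sub_cancel, Nat.nth_count q1]
  have d := q2 _ (Nat.nth_mem_of_infinite hi (Nat.count p q + 1)) (by
    conv_lhs => rw [← Nat.nth_count q1]
    exact (Nat.nth_lt_nth hi).2 (Nat.lt_succ_self _))
  have d' : (q : ℝ) + (1 + e) * log q ^ (k + 1) / c ≤ Nat.nth p (Nat.count p q + 1) := by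
    have d1 : (q : ℝ) + gp e c k q ≤ Nat.nth p (Nat.count p q + 1) := by exact_mod_cast d
    have d2 : (1 + e) * log q ^ (k + 1) / c ≤ gp e c k q := Nat.le_ceil _
    linarith
  refine lt_of_lt_of_le ?_ d'
  have h1' : (1 - e / 4) * c * q / log q ^ k ≤ ((Nat.count p q + 1 : ℕ) : ℝ) := by
    push_cast
    linarith
  have hn : (0 : ℝ) < ((Nat.count p q + 1 : ℕ) : ℝ) := by positivity
  generalize ((Nat.count p q + 1 : ℕ) : ℝ) = n at h1' hn
  have hq : (0 : ℝ) < q := by exact_mod_cast (by omega : 0 < q)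
  have u3 : 0 < 3 * c / e := by positivity
  have l0 : 0 < log (q : ℝ) := by linarith
  rw [rpow_add hq, rpow_one, rpow_def_of_pos hq]
  set l := log (q : ℝ) with hl
  have L1 : 3 * c / e < l ^ (k + 1) :=
    lt_of_lt_of_le (by linarith) (le_self_pow₀ (by linarith) (by omega))
  rw [div_lt_iff₀ e0] at L1
  have u1 : q * (l * ((1 + e / 4) / n)) ≤ (1 + 6 / 10 * e) * (l ^ (k + 1) / c) := by
    rw [div_le_iff₀ (by positivity)] at h1'
    rw [← mul_div_assoc, ← mul_div_assoc, ← mul_div_assoc, div_le_div_iff₀ hn hc, pow_succ]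
    have b1 := mul_le_mul_of_nonneg_left h1' (by positivity : 0 ≤ (1 + 6 / 10 * e) * l)
    have b2 : 1 + e / 4 ≤ (1 + 6 / 10 * e) * (1 - e / 4) := by nlinarith
    have b3 := mul_le_mul_of_nonneg_right b2 (by positivity : 0 ≤ l * c * q)
    nlinarith
  have u0 : 0 ≤ l * ((1 + e / 4) / n) := by positivity
  generalize l * ((1 + e / 4) / n) = u at u0 u1
  have e3 : 2 / c * l ^ (k + 1) = 2 * (l ^ (k + 1) / c) := by ring
  have e4 : 4 / c ^ 2 * l ^ ((k + 1) * 2) = (2 * (l ^ (k + 1) / c)) ^ 2 := by ring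
  have e5 : 3 < e * (l ^ (k + 1) / c) := by
    rw [← mul_div_assoc, lt_div_iff₀ hc]
    linarith
  rw [mul_div_assoc (1 + e)]
  have w0 : 0 ≤ l ^ (k + 1) / c := by positivity
  generalize l ^ (k + 1) / c = w at u1 e3 e4 e5 w0
  have u2 : q * u ≤ 2 * w := by nlinarith
  have u3 : u ≤ 1 := by
    by_contra hh
    nlinarith
  have u4 : q * u ^ 2 ≤ 1 := by
    have v := pow_le_pow_left₀ (by positivity) u2 2
    by_contra hh
    nlinarith
  have u5 := (abs_le.1 (abs_exp_sub_one_sub_id_le (x := u) (by rwa [abs_of_nonneg u0]))).2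
  nlinarith

open Classical in
lemma count_ge {Ω : Type*} {A : ℕ → Set Ω} {ω : Ω} {e : ℝ} {x : ℕ} (hc : 0 < c) (e0 : 0 < e)
    (a1 : |∑ m ∈ range x, ((A m).indicator (fun _ => (1 : ℝ)) ω - r m)| ≤ √(x * log x))
    (a2 : (1 - e / 8) * c * x / log x ^ k ≤ ∑ m ∈ range x, r m) (a3 : 1 ≤ log (x : ℝ))
    (a4 : 16 / (e * c) * log x ^ (k + 1) ≤ √x) :
    (1 - e / 4) * c * x / log x ^ k ≤ Nat.count (fun m => 0 < m ∧ ω ∈ A m) x := by
  have b : ∀ y : ℕ, ∑ m ∈ range y, (A m).indicator (fun _ => (1 : ℝ)) ω ≤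
      Nat.count (fun m => 0 < m ∧ ω ∈ A m) y + 1 := by
    intro y
    rcases y with _ | y
    · simp
    have : (Nat.count (fun m => 0 < m ∧ ω ∈ A m) (y + 1) : ℝ) =
        ∑ m ∈ range y, (A (m + 1)).indicator (fun _ => (1 : ℝ)) ω := by
      induction y with
      | zero => simp [Nat.count_succ]
      | succ y ih =>
        rw [Nat.count_succ, sum_range_succ, ← ih]
        by_cases hm : ω ∈ A (y + 1) <;> simp [hm]
    rw [this, sum_range_succ']
    by_cases hm : ω ∈ A 0 <;> simp [hm]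
  have x1 : (1 : ℝ) ≤ x := by
    rcases Nat.eq_zero_or_pos x with rfl | h
    · simp at a3
      linarith
    · exact_mod_cast h
  have s1 : 1 ≤ √(x : ℝ) := one_le_sqrt.2 x1
  have d1 : √(x * log x) ≤ √x * log x := by
    refine sqrt_le_iff.2 ⟨by positivity, ?_⟩
    rw [mul_pow, sq_sqrt (by linarith)]
    exact mul_le_mul_of_nonneg_left (by nlinarith) (by linarith)
  have d2 : 2 * (√x * log x) ≤ e / 8 * c * x / log x ^ k := by
    rw [le_div_iff₀ (by positivity)]
    have := mul_le_mul_of_nonneg_left a4 (by positivity : 0 ≤ e / 8 * c * √x)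
    rw [mul_assoc (e / 8 * c) √x √x, mul_self_sqrt (by linarith)] at this
    refine le_trans (le_of_eq ?_) this
    rw [pow_succ]
    field_simp
    ring
  have d3 : 1 ≤ √x * log x := one_le_mul_of_one_le_of_one_le s1 a3
  have d4 : (1 - e / 4) * c * x / log x ^ k =
      (1 - e / 8) * c * x / log x ^ k - e / 8 * c * x / log x ^ k := by ring
  rw [sum_sub_distrib, abs_le] at a1
  linarith [b x, a1.1]

end Pool.Agent.MP_6e51af_nt.H82
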