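import Mathlib

/-! Counting with periodic conditions. -/

set_option autoImplicit false

namespace Pool.Agent.MP_6e51af_nt.H82

open Finset

/-- `A` depends only on the residue modulo `p` -/
def Per (p : ℕ) (A : ℕ → Prop) : Prop := ∀ n n', n ≡ n' [MOD p] → A n → A n'

lemma Per.iff {p : ℕ} {A : ℕ → Prop} (h : Per p A) {n n' : ℕ} (e : n ≡ n' [MOD p]) :
    A n ↔ A n' := ⟨h _ _ e, h _ _ e.symm⟩

lemma Per.not {p : ℕ} {A : ℕ → Prop} (h : Per p A) : Per p fun n => ¬A n :=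
  fun _ _ e h1 h2 => h1 (h _ _ e.symm h2)

lemma Per.aff {p : ℕ} {A : ℕ → Prop} (h : Per p A) (r u : ℕ) : Per p fun m => A (r + m * u) :=
  fun _ _ e h1 => h _ _ ((e.mul_right u).add_left r) h1

lemma per_all {S : Finset ℕ} {B : ℕ → ℕ → Prop} (h : ∀ p ∈ S, Per p (B p)) :
    Per (∏ p ∈ S, p) fun n => ∀ p ∈ S, B p n :=
  fun _ _ e h1 p hp => h p hp _ _ (e.of_dvd (dvd_prod_of_mem (fun p => p) hp)) (h1 p hp)

/-- number of elements of `s` with the property `A` -/
noncomputable def cnt (s : Finset ℕ) (A : ℕ → Prop) : ℕ :=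
  (@Finset.filter _ A (Classical.decPred A) s).card

lemma cnt_eq (s : Finset ℕ) (A : ℕ → Prop) [DecidablePred A] : cnt s A = (s.filter A).card := by
  unfold cnt
  congr

lemma cnt_congr {s : Finset ℕ} {A B : ℕ → Prop} (h : ∀ n ∈ s, A n ↔ B n) : cnt s A = cnt s B := by
  classical
  rw [cnt_eq, cnt_eq, filter_congr h]

lemma cnt_mono {s t : Finset ℕ} {A B : ℕ → Prop} (h : ∀ n ∈ s, A n → n ∈ t ∧ B n) :
    cnt s A ≤ cnt t B := by
  classical
  rw [cnt_eq, cnt_eq]
  exact card_le_card fun n hn => mem_filter.2 (h n (mem_filter.1 hn).1 (mem_filter.1 hn).2)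

lemma cnt_le (s : Finset ℕ) (A : ℕ → Prop) : cnt s A ≤ s.card := by
  classical
  rw [cnt_eq]
  exact card_filter_le _ _

lemma crt2 {a b : ℕ} (co : Nat.Coprime a b) (ha : 0 < a) (hb : 0 < b) {A B : ℕ → Prop}
    (hA : Per a A) (hB : Per b B) :
    cnt (range (a * b)) (fun n => A n ∧ B n) = cnt (range a) A * cnt (range b) B := by
  classical
  rw [cnt_eq, cnt_eq, cnt_eq, ← card_product]
  refine card_bij (fun n _ => (n % a, n % b)) ?_ ?_ ?_
  · intro n hn
    rw [mem_filter] at hn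
    simp only [mem_product, mem_filter, mem_range]
    exact ⟨⟨Nat.mod_lt _ ha, hA _ _ (Nat.mod_modEq n a).symm hn.2.1⟩,
      Nat.mod_lt _ hb, hB _ _ (Nat.mod_modEq n b).symm hn.2.2⟩
  · intro n hn n' hn' e
    rw [mem_filter, mem_range] at hn hn'
    have e1 : n ≡ n' [MOD a * b] := (Nat.modEq_and_modEq_iff_modEq_mul co).1
      ⟨congrArg Prod.fst e, congrArg Prod.snd e⟩
    exact Nat.ModEq.eq_of_lt_of_lt e1 hn.1 hn'.1
  · rintro ⟨i, j⟩ hij
    simp only [mem_product, mem_filter, mem_range] at hij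
    have h1 := (Nat.chineseRemainder co i j).2
    refine ⟨Nat.chineseRemainder co i j, ?_, ?_⟩
    · rw [mem_filter, mem_range]
      exact ⟨Nat.chineseRemainder_lt_mul co i j ha.ne' hb.ne', hA _ _ h1.1.symm hij.1.2,
        hB _ _ h1.2.symm hij.2.2⟩
    · rw [Prod.mk.injEq]
      exact ⟨Eq.trans h1.1 (Nat.mod_eq_of_lt hij.1.1), Eq.trans h1.2 (Nat.mod_eq_of_lt hij.2.1)⟩

lemma crt_card {S : Finset ℕ} (hS : ∀ p ∈ S, p.Prime) {B : ℕ → ℕ → Prop}
    (h : ∀ p ∈ S, Per p (B p)) :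
    cnt (range (∏ p ∈ S, p)) (fun n => ∀ p ∈ S, B p n) = ∏ p ∈ S, cnt (range p) (B p) := by
  induction S using Finset.induction_on with
  | empty => simp [cnt]
  | insert a S ha ih =>
    have pa := hS a (mem_insert_self _ _)
    have hS' : ∀ p ∈ S, p.Prime := fun p hp => hS p (mem_insert_of_mem hp)
    have h' : ∀ p ∈ S, Per p (B p) := fun p hp => h p (mem_insert_of_mem hp)
    have co : Nat.Coprime a (∏ s ∈ S, s) := Nat.Coprime.prod_right fun s hs =>
      (Nat.coprime_primes pa (hS' s hs)).2 fun e => ha (e ▸ hs)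
    rw [prod_insert ha, prod_insert ha, ← ih hS' h',
      ← crt2 co pa.pos (prod_pos fun p hp => (hS' p hp).pos) (h a (mem_insert_self _ _))
        (per_all h')]
    exact cnt_congr fun n _ => forall_mem_insert _ _ _

lemma aff_card {p u : ℕ} (hp : 0 < p) (co : Nat.Coprime p u) (r : ℕ) {A : ℕ → Prop}
    (hA : Per p A) :
    cnt (range p) (fun m => A (r + m * u)) = cnt (range p) A := by
  classical
  rw [cnt_eq, cnt_eq]
  have inj : ∀ m ∈ range p, ∀ m' ∈ range p, (r + m * u) % p = (r + m' * u) % p → m = m' := by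
    intro m hm m' hm' e
    exact Nat.ModEq.eq_of_lt_of_lt (Nat.ModEq.cancel_right_of_coprime co
      (Nat.ModEq.add_left_cancel' r e)) (mem_range.1 hm) (mem_range.1 hm')
  refine card_bij (fun m _ => (r + m * u) % p) ?_ ?_ ?_
  · intro m hm
    rw [mem_filter] at hm ⊢
    exact ⟨mem_range.2 (Nat.mod_lt _ hp), hA _ _ (Nat.mod_modEq _ p).symm hm.2⟩
  · intro m hm m' hm' e
    exact inj m (mem_filter.1 hm).1 m' (mem_filter.1 hm').1 e
  · intro n hn
    rw [mem_filter] at hn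
    obtain ⟨m, hm, e⟩ := surj_on_of_inj_on_of_card_le (s := range p) (t := range p)
      (fun m _ => (r + m * u) % p) (fun m _ => mem_range.2 (Nat.mod_lt _ hp))
      (fun m m' hm hm' e => inj m hm m' hm' e) le_rfl n hn.1
    refine ⟨m, mem_filter.2 ⟨hm, hA _ _ ?_ hn.2⟩, e.symm⟩
    rw [e]
    exact Nat.mod_modEq _ p

lemma per_block {P : ℕ} {A : ℕ → Prop} (hA : Per P A) (u : ℕ) :
    cnt (Ico u (u + P)) A = cnt (range P) A := by
  classical
  rw [cnt_eq, cnt_eq]
  have hper : Function.Periodic A P := fun n =>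
    propext (hA.iff (Nat.add_modEq_right (a := n)))
  rw [Nat.filter_Ico_card_eq_of_periodic u P _ hper, range_eq_Ico,
    ← Nat.filter_Ico_card_eq_of_periodic 0 P _ hper, zero_add]

lemma per_mul {P : ℕ} {A : ℕ → Prop} (hA : Per P A) (u q : ℕ) :
    cnt (Ico u (u + q * P)) A = q * cnt (range P) A := by
  classical
  induction q with
  | zero => simp [cnt]
  | succ q ih =>
    rw [add_mul, add_mul, one_mul, one_mul, ← add_assoc,
      ← Ico_union_Ico_eq_Ico (b := u + q * P) (by omega) (by omega), cnt_eq, filter_union,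
      card_union_of_disjoint (disjoint_filter_filter (Ico_disjoint_Ico_consecutive _ _ _)),
      ← cnt_eq, ← cnt_eq, ih, per_block hA]

lemma per_count {P : ℕ} (hP : 0 < P) {A : ℕ → Prop} (hA : Per P A) (u L : ℕ) :
    |(cnt (Ico u (u + L)) A : ℝ) - L * (cnt (range P) A / P)| ≤ cnt (range P) A := by
  set W := cnt (range P) A
  have h1 : L / P * P ≤ L := Nat.div_mul_le_self L P
  have h2 : L < (L / P + 1) * P := by
    rw [mul_comm]
    exact Nat.lt_mul_div_succ L hP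
  have a1 : L / P * W ≤ cnt (Ico u (u + L)) A := by
    rw [← per_mul hA u]
    exact cnt_mono fun n hn h => ⟨Ico_subset_Ico_right (by omega) hn, h⟩
  have a2 : cnt (Ico u (u + L)) A ≤ (L / P + 1) * W := by
    rw [← per_mul hA u]
    exact cnt_mono fun n hn h => ⟨Ico_subset_Ico_right (by omega) hn, h⟩
  have P0 : (0 : ℝ) < P := by exact_mod_cast hP
  have W0 : (0 : ℝ) ≤ W := Nat.cast_nonneg _
  have b1 : ((L / P : ℕ) : ℝ) * P ≤ L := by exact_mod_cast h1
  have b2 : (L : ℝ) ≤ ((L / P : ℕ) + 1) * P := by exact_mod_cast h2.le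
  have c1 : ((L / P : ℕ) : ℝ) * W ≤ cnt (Ico u (u + L)) A := by exact_mod_cast a1
  have c2 : (cnt (Ico u (u + L)) A : ℝ) ≤ ((L / P : ℕ) + 1) * W := by exact_mod_cast a2
  have d1 : ((L / P : ℕ) : ℝ) ≤ L / P := by rwa [le_div_iff₀ P0]
  have d2 : (L : ℝ) / P ≤ (L / P : ℕ) + 1 := by rwa [div_le_iff₀ P0]
  have e : (L : ℝ) * (W / P) = L / P * W := by ring
  have f1 := mul_le_mul_of_nonneg_right d1 W0
  have f2 := mul_le_mul_of_nonneg_right d2 W0
  rw [e, abs_le]
  constructor <;> linarith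

/-- counting with one condition for each prime -/
lemma primes_count {S : Finset ℕ} (hS : ∀ p ∈ S, p.Prime) {B : ℕ → ℕ → Prop}
    (h : ∀ p ∈ S, Per p (B p)) {ρ : ℕ → ℕ} (hρ : ∀ p ∈ S, cnt (range p) (B p) = ρ p)
    (u L : ℕ) :
    |(cnt (Ico u (u + L)) (fun n => ∀ p ∈ S, B p n) : ℝ) -
      L * ∏ p ∈ S, ((ρ p : ℝ) / p)| ≤ ∏ p ∈ S, (ρ p : ℝ) := by
  have := per_count (prod_pos fun p hp => (hS p hp).pos) (per_all h) u L
  rw [crt_card hS h, prod_congr rfl hρ, Nat.cast_prod, Nat.cast_prod] at this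
  rwa [prod_div_distrib]

end Pool.Agent.MP_6e51af_nt.H82
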