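import Mathlib

/-! Differences of roots modulo primes. -/

set_option autoImplicit false

namespace Pool.Agent.MP_6e51af_nt.H82

open Finset Polynomial

lemma ex_G (F : ℤ[X]) (hF : 0 < F.natDegree) : ∃ G : ℤ[X], G ≠ 0 ∧
    ∀ p x t : ℤ, p ∣ F.eval x → p ∣ F.eval (x + t) → p ∣ G.eval t := by
  classical
  have e : ∀ t : ℤ, (resultant (F.map Polynomial.C) (taylor X (F.map Polynomial.C))
      F.natDegree F.natDegree).eval t = resultant F (taylor t F) F.natDegree F.natDegree := by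
    intro t
    have e0 : (F.map Polynomial.C).map (evalRingHom t) = F := by ext; simp
    rw [← coe_evalRingHom, ← resultant_map_map, map_taylor, e0, coe_evalRingHom, eval_X]
  refine ⟨resultant (F.map Polynomial.C) (taylor X (F.map Polynomial.C))
      F.natDegree F.natDegree, fun h0 => ?_, fun p x t h1 h2 => ?_⟩
  · set f : ℂ[X] := F.map (Int.castRingHom ℂ) with hf
    have hd : f.natDegree = F.natDegree :=
      natDegree_map_eq_of_injective (RingHom.injective_int _) F
    have f0 : f ≠ 0 := fun h => by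
      rw [h, natDegree_zero] at hd
      omega
    obtain ⟨t, ht⟩ : ∃ t : ℤ, (t : ℂ) ∉
        (f.roots.toFinset ×ˢ f.roots.toFinset).image fun z => z.2 - z.1 := by
      by_contra hh
      push Not at hh
      exact Set.infinite_range_of_injective (Int.cast_injective (α := ℂ))
        (Set.Finite.subset (finite_toSet _) (by rintro _ ⟨t, rfl⟩; exact hh t))
    have co : IsCoprime f (taylor (t : ℂ) f) := by
      rw [isCoprime_iff_aeval_ne_zero_of_isAlgClosed ℂ ℂ]
      intro z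
      by_contra hh
      push Not at hh
      simp only [coe_aeval_eq_eval, taylor_eval] at hh
      refine ht (mem_image.2 ⟨(z, z + t), ?_, by ring⟩)
      simp only [mem_product, Multiset.mem_toFinset, mem_roots f0, IsRoot.def]
      exact hh
    have := resultant_ne_zero _ _ co
    rw [natDegree_taylor, hd, show (t : ℂ) = Int.castRingHom ℂ t by simp, hf, ← map_taylor,
      resultant_map_map, ← e, h0] at this
    simp at this
  · obtain ⟨u, v, -, -, h⟩ := exists_mul_add_mul_eq_C_resultant F (taylor t F) le_rfl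
      (natDegree_taylor F _).le (Or.inl hF.ne')
    have := congrArg (eval x) h
    rw [eval_add, eval_mul, eval_mul, eval_C, taylor_eval] at this
    rw [e, ← this]
    exact (h1.mul_right _).add (h2.mul_right _)

/-- the homogeneous form of `G` -/
noncomputable def hom (G : ℤ[X]) (s β : ℤ) : ℤ :=
  ∑ i ∈ range (G.natDegree + 1), G.coeff i * β ^ i * s ^ (G.natDegree - i)

lemma hom_dvd {G : ℤ[X]} {p s β t : ℤ} (h1 : p ∣ G.eval t) (h2 : p ∣ s * t - β) :
    p ∣ hom G s β := by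
  have e : s ^ G.natDegree * G.eval t = hom G s (s * t) := by
    rw [eval_eq_sum_range, mul_sum, hom]
    refine sum_congr rfl fun i hi => ?_
    obtain ⟨j, hj⟩ := Nat.exists_eq_add_of_le (Nat.lt_succ_iff.1 (mem_range.1 hi))
    rw [hj, Nat.add_sub_cancel_left]
    ring
  have h3 : p ∣ hom G s (s * t) - hom G s β := by
    rw [hom, hom, ← sum_sub_distrib]
    refine dvd_sum fun i _ => ?_
    rw [← sub_mul, ← mul_sub]
    exact ((h2.trans (sub_dvd_pow_sub_pow _ _ i)).mul_left _).mul_right _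
  have h4 : p ∣ hom G s (s * t) := e ▸ h1.mul_left _
  simpa using dvd_sub h4 h3

lemma hom_le (G : ℤ[X]) : ∃ A : ℕ, ∀ (s β : ℤ) (B : ℕ), |s| ≤ B → |β| ≤ B →
    |hom G s β| ≤ A * B ^ G.natDegree := by
  refine ⟨∑ i ∈ range (G.natDegree + 1), (G.coeff i).natAbs, fun s β B h1 h2 => ?_⟩
  refine (abs_sum_le_sum_abs _ _).trans ?_
  push_cast
  rw [sum_mul]
  refine sum_le_sum fun i hi => ?_
  obtain ⟨j, hj⟩ := Nat.exists_eq_add_of_le (Nat.lt_succ_iff.1 (mem_range.1 hi))
  rw [hj, Nat.add_sub_cancel_left, abs_mul, abs_mul, abs_pow, abs_pow, mul_assoc, pow_add]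
  gcongr

lemma hom_zero {G : ℤ[X]} (hG : G ≠ 0) : ∃ K : ℕ, ∀ s β : ℤ, 0 < s → hom G s β = 0 →
    ∃ a b : ℤ, 1 ≤ a ∧ a ≤ K ∧ |b| ≤ K ∧ s * b = β * a := by
  classical
  set g : ℚ[X] := G.map (Int.castRingHom ℚ) with hg
  have g0 : g ≠ 0 := (Polynomial.map_ne_zero_iff (RingHom.injective_int _)).2 hG
  refine ⟨∑ r ∈ g.roots.toFinset, (r.den + r.num.natAbs), fun s β hs h => ?_⟩
  have s0 : (s : ℚ) ≠ 0 := by exact_mod_cast hs.ne'
  have hr : (β : ℚ) / s ∈ g.roots.toFinset := by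
    rw [Multiset.mem_toFinset, mem_roots g0, IsRoot.def, hg, eval_map, eval₂_eq_sum_range]
    have h1 := congrArg (Int.cast : ℤ → ℚ) h
    rw [hom] at h1
    push_cast at h1
    refine mul_left_cancel₀ (pow_ne_zero G.natDegree s0) ?_
    rw [mul_zero, ← h1, mul_sum]
    refine sum_congr rfl fun i hi => ?_
    obtain ⟨j, hj⟩ := Nat.exists_eq_add_of_le (Nat.lt_succ_iff.1 (mem_range.1 hi))
    rw [hj, Nat.add_sub_cancel_left, eq_intCast, div_pow, pow_add]
    field_simp
  have h1 := single_le_sum (f := fun r : ℚ => r.den + r.num.natAbs) (fun _ _ => Nat.zero_le _) hr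
  refine ⟨((β : ℚ) / s).den, ((β : ℚ) / s).num, by exact_mod_cast Rat.den_pos _, by omega,
    by rw [Int.abs_eq_natAbs]; omega, ?_⟩
  have h2 := Rat.mul_den_eq_num ((β : ℚ) / s)
  have h3 : (s : ℚ) * ((β : ℚ) / s).num = β * ((β : ℚ) / s).den := by
    rw [← h2]
    field_simp
  exact_mod_cast h3

lemma few_primes {Q : Finset ℕ} (hQ : ∀ p ∈ Q, p.Prime) {v n : ℕ} (hv : 2 ≤ v)
    (h1 : ∀ p ∈ Q, v ≤ p) {R : ℤ} (R0 : R ≠ 0) (hR : |R| ≤ (v : ℤ) ^ n) :
    (Q.filter fun p : ℕ => (p : ℤ) ∣ R).card ≤ n := by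
  set T := Q.filter fun p : ℕ => (p : ℤ) ∣ R
  have a1 : ∏ p ∈ T, p ∣ R.natAbs :=
    Finset.prod_primes_dvd _ (fun p hp => (hQ p (mem_filter.1 hp).1).prime)
      fun p hp => Int.natCast_dvd.1 (mem_filter.1 hp).2
  have a2 := Nat.le_of_dvd (Int.natAbs_pos.2 R0) a1
  have a3 : v ^ T.card ≤ ∏ p ∈ T, p :=
    pow_card_le_prod _ _ _ fun p hp => h1 p (mem_filter.1 hp).1
  have a4 : R.natAbs ≤ v ^ n := by
    rw [Int.abs_eq_natAbs] at hR
    exact_mod_cast hR
  exact (Nat.pow_le_pow_iff_right hv).1 (a3.trans (a2.trans a4))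

end Pool.Agent.MP_6e51af_nt.H82
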