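import Pool.Agent.MP_6e51af_nt.H82.Dir
import Pool.Agent.MP_6e51af_nt.H82.Res
import Pool.Agent.MP_c5bf7b_nt.H98.Poly

/-! The term of top order in the inclusion-exclusion. -/

set_option autoImplicit false

namespace Pool.Agent.MP_6e51af_nt.H82

open Finset Polynomial Pool.Agent.MP_c5bf7b_nt.H98

/-- `n` is a root of `F` modulo `p` -/
def Rt (F : ℤ[X]) (p n : ℕ) : Prop := (p : ℤ) ∣ F.eval (n : ℤ)

lemma Rt_per (F : ℤ[X]) (p : ℕ) : Per p (Rt F p) := fun _ _ e h =>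
  dvd_eval_congr F p _ _ e.dvd h

lemma Rt_cnt (F : ℤ[X]) (p : ℕ) : cnt (range p) (Rt F p) = nroots F p := by
  classical
  rw [cnt_eq]
  unfold nroots
  congr

lemma sum_cnt (s t : Finset ℕ) (A : ℕ → ℕ → Prop) :
    ∑ a ∈ s, cnt t (A a) = ∑ b ∈ t, cnt s (fun a => A a b) := by
  classical
  simp only [cnt_eq, card_filter]
  exact sum_comm

/-- all primes of `S` divide a nonzero value of the form -/
def Bad (G : ℤ[X]) (v Z E : ℕ) (S : Finset ℕ) : Prop :=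
  ∃ z ∈ Icc 1 (2 * v ^ 3) ×ˢ Icc (-(Z : ℤ)) Z, hom G ((z.1 * E : ℕ) : ℤ) z.2 ≠ 0 ∧
    ∀ p ∈ S, (p : ℤ) ∣ hom G ((z.1 * E : ℕ) : ℤ) z.2

open Classical in
lemma top1 {F G : ℤ[X]} (hG : ∀ p x t : ℤ, p ∣ F.eval x → p ∣ F.eval (x + t) → p ∣ G.eval t)
    {K : ℕ} (hK : ∀ s β : ℤ, 0 < s → hom G s β = 0 →
      ∃ a b : ℤ, 1 ≤ a ∧ a ≤ K ∧ |b| ≤ K ∧ s * b = β * a)
    {S : Finset ℕ} (hS : ∀ p ∈ S, p.Prime) {v Z E y r : ℕ} (hr : ∀ p ∈ S, Rt F p r)
    (hp : ∀ p ∈ S, 2 * v ^ 8 < p) (hE : ∀ p ∈ S, Nat.Coprime p E) (E0 : 0 < E)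
    (D1 : Z * v ^ 5 ≤ ∏ p ∈ S, p) (D2 : ∏ p ∈ S, p ≤ Z * v ^ 6) (Y1 : E * v ^ 8 * y ≤ Z * v ^ 4)
    (Y2 : Z * v ^ 4 ≤ 2 * (E * v ^ 8 * y)) (hv : 6 * K + 4 < v) (hy : 2 * K < y) {t : ℕ}
    (ht : ∀ p ∈ S, Rt F p (r + t)) :
    (cnt (Ico (v ^ 8) (v ^ 8 + v ^ 7)) (Hit (∏ p ∈ S, p) (E * v ^ 8 * y)
      (2 * (E * (v ^ 8 + v ^ 7) * y)) (E * t)) : ℝ) ≤
      (if t = 0 then 0 else (v : ℝ) ^ 7 * ((E * v ^ 8 * y : ℕ) / (∏ p ∈ S, p : ℕ)) * (1 + 11 / v)) +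
        if Bad G v Z E S then (v : ℝ) ^ 7 else 0 := by
  set D := ∏ p ∈ S, p with hD
  set Y := E * v ^ 8 * y with hY
  set Y' := 2 * (E * (v ^ 8 + v ^ 7) * y) with hY'
  have D0 : 0 < D := prod_pos fun p hp => (hS p hp).pos
  have v1 : 1 ≤ v := by omega
  have v0 : (0 : ℝ) < v := by exact_mod_cast v1
  have w1 : v ^ 7 ≤ v ^ 8 := Nat.pow_le_pow_right v1 (by norm_num)
  have w2 : 0 < v ^ 8 := by positivity
  have y1 : Y' ≤ 4 * Y := by
    have : E * (v ^ 8 + v ^ 7) * y ≤ E * (2 * v ^ 8) * y := by gcongr; omega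
    calc Y' ≤ 2 * (E * (2 * v ^ 8) * y) := by omega
      _ = 4 * Y := by rw [hY]; ring
  have y2 : Y ≤ Y' := by
    have : E * v ^ 8 * y ≤ E * (v ^ 8 + v ^ 7) * y := by gcongr; omega
    omega
  have Y0 : 0 < Y := by
    have : 0 < y := by omega
    positivity
  have y3 : v * Y ≤ D := by
    calc v * Y ≤ v * (Z * v ^ 4) := by gcongr
      _ = Z * v ^ 5 := by ring
      _ ≤ D := D1
  have zero : ∀ a b : ℤ, 1 ≤ a → a ≤ K + 1 → |b| ≤ K → (D : ℤ) ∣ a * t - b →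
      cnt (Ico (v ^ 8) (v ^ 8 + v ^ 7)) (Hit D Y Y' (E * t)) = 0 := by
    intro a b a1 a2 b1 hd
    rw [cnt_eq, card_eq_zero, filter_eq_empty_iff]
    rintro c hc ⟨m, hm, h⟩
    rw [mem_Ico] at hc hm
    have h1 : (D : ℤ) ∣ a * m - b * (E * c) := by
      have := dvd_add (h.mul_left a) (hd.mul_left (E * c))
      rwa [show a * ((m : ℤ) - c * (E * t : ℕ)) + E * c * (a * t - b) = a * m - b * (E * c) by
        push_cast; ring] at this
    have c1 : (E : ℤ) * c ≤ 2 * (E * v ^ 8) := by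
      have : E * c ≤ E * (2 * v ^ 8) := by gcongr; omega
      have h2 : ((E * c : ℕ) : ℤ) ≤ (E * (2 * v ^ 8) : ℕ) := by exact_mod_cast this
      push_cast at h2
      linarith
    have c0 : (0 : ℤ) ≤ E * c := by positivity
    have c2 : |b * (E * c)| ≤ K * (2 * (E * v ^ 8)) := by
      rw [abs_mul, abs_of_nonneg c0]
      gcongr
    have c3 : (K : ℤ) * (2 * (E * v ^ 8)) < Y := by
      have : 2 * K * (E * v ^ 8) < y * (E * v ^ 8) :=
        Nat.mul_lt_mul_of_pos_right hy (by positivity)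
      have h2 : ((2 * K * (E * v ^ 8) : ℕ) : ℤ) < (y * (E * v ^ 8) : ℕ) := by exact_mod_cast this
      rw [hY]
      push_cast at h2 ⊢
      linarith
    have m1 : (Y : ℤ) ≤ m := by exact_mod_cast hm.1
    have m2 : (m : ℤ) ≤ 4 * Y := by exact_mod_cast hm.2.le.trans y1
    have m3 : (v : ℤ) * Y ≤ D := by exact_mod_cast y3
    have m4 : 6 * (K : ℤ) + 4 < v := by exact_mod_cast hv
    have m5 : (0 : ℤ) < Y := by exact_mod_cast Y0
    have K0 : (0 : ℤ) ≤ K := Int.natCast_nonneg K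
    rw [abs_le] at c2
    have l1 : m ≤ a * m := by nlinarith
    have l2 : a * m ≤ (K + 1) * (4 * Y) := by nlinarith
    have := Int.le_of_dvd (by linarith) h1
    nlinarith
  have g0 : (0 : ℝ) ≤ if Bad G v Z E S then (v : ℝ) ^ 7 else 0 := by
    split_ifs <;> positivity
  by_cases t0 : t = 0
  · rw [zero 1 0 le_rfl (by omega) (by simp) (by simp [t0]), if_pos t0]
    simpa using g0
  rw [if_neg t0]
  have g1 : (0 : ℝ) ≤ (v : ℝ) ^ 7 * ((Y : ℝ) / D) * (1 + 11 / v) := by positivity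
  rcases ord (τ := E * t) v1 D0 D2 Y2 y2 (by
    rw [hY', hY]
    push_cast
    apply le_of_eq
    field_simp) (v ^ 8) with h | ⟨α, hα, β, hβ, h⟩
  · linarith
  have α1 := mem_Icc.1 hα
  have h' : (D : ℤ) ∣ ((α * E : ℕ) : ℤ) * t - β := by
    convert h using 1
    push_cast
    ring
  by_cases R0 : hom G ((α * E : ℕ) : ℤ) β = 0
  · obtain ⟨a, b, a1, a2, b1, e⟩ := hK _ _ (by
      have : 0 < α * E := Nat.mul_pos α1.1 E0
      exact_mod_cast this) R0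
    have co : Nat.Coprime D (α * E) := Nat.Coprime.prod_left fun p hp' => by
      refine Nat.Coprime.mul_right ?_ (hE p hp')
      have w3 : v ^ 3 ≤ v ^ 8 := Nat.pow_le_pow_right v1 (by norm_num)
      exact (Nat.coprime_of_lt_prime (by omega) (by have := hp p hp'; omega) (hS p hp'))
    rw [zero a b a1 (by omega) b1 ?_]
    · push_cast
      linarith
    · refine (Nat.isCoprime_iff_coprime.2 co).dvd_of_dvd_mul_left ?_
      convert h'.mul_left a using 1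
      linear_combination -e
  · have hB : Bad G v Z E S := by
      refine ⟨(α, β), mem_product.2 ⟨hα, hβ⟩, R0, fun p hp' => ?_⟩
      have := ht p hp'
      rw [Rt, Nat.cast_add] at this
      exact hom_dvd (t := t) (hG p r t (hr p hp') this)
        ((Int.natCast_dvd_natCast.2 (dvd_prod_of_mem (fun p => p) hp')).trans h')
    rw [if_pos hB]
    have := cnt_le (Ico (v ^ 8) (v ^ 8 + v ^ 7)) (Hit D Y Y' (E * t))
    rw [Nat.card_Ico, Nat.add_sub_cancel_left] at this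
    have h2 : (cnt (Ico (v ^ 8) (v ^ 8 + v ^ 7)) (Hit D Y Y' (E * t)) : ℝ) ≤ v ^ 7 := by
      exact_mod_cast this
    linarith

open Classical in
lemma top {F G : ℤ[X]} (hG : ∀ p x t : ℤ, p ∣ F.eval x → p ∣ F.eval (x + t) → p ∣ G.eval t)
    {K : ℕ} (hK : ∀ s β : ℤ, 0 < s → hom G s β = 0 →
      ∃ a b : ℤ, 1 ≤ a ∧ a ≤ K ∧ |b| ≤ K ∧ s * b = β * a)
    {S : Finset ℕ} (hS : ∀ p ∈ S, p.Prime) {v Z E y r : ℕ} (hr : ∀ p ∈ S, Rt F p r)
    (hp : ∀ p ∈ S, 2 * v ^ 8 < p) (hE : ∀ p ∈ S, Nat.Coprime p E) (E0 : 0 < E)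
    (D1 : Z * v ^ 5 ≤ ∏ p ∈ S, p) (D2 : ∏ p ∈ S, p ≤ Z * v ^ 6) (Y1 : E * v ^ 8 * y ≤ Z * v ^ 4)
    (Y2 : Z * v ^ 4 ≤ 2 * (E * v ^ 8 * y)) (hv : 6 * K + 4 < v) (hy : 2 * K < y) {u : ℕ → ℕ}
    (hu : ∀ c ∈ Ico (v ^ 8) (v ^ 8 + v ^ 7), E * c * u c ≡ 1 [MOD ∏ p ∈ S, p]) :
    ∑ c ∈ Ico (v ^ 8) (v ^ 8 + v ^ 7), (cnt (Ico (E * c * y) (E * c * y + E * c * y))
      (fun m => ∀ p ∈ S, Rt F p (r + m * u c)) : ℝ) ≤
      (v : ℝ) ^ 7 * (E * v ^ 8 * y : ℕ) * (1 + 11 / v) *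
        (∏ p ∈ S, (nroots F p : ℝ) / p - ∏ p ∈ S, 1 / (p : ℝ)) +
        if Bad G v Z E S then (v : ℝ) ^ 7 * ∏ p ∈ S, (nroots F p : ℝ) else 0 := by
  have T1 := fun t => top1 hG hK hS hr hp hE E0 D1 D2 Y1 Y2 hv hy (t := t)
  set D := ∏ p ∈ S, p with hD
  set Y := E * v ^ 8 * y with hY
  set Y' := 2 * (E * (v ^ 8 + v ^ 7) * y) with hY'
  set I := Ico (v ^ 8) (v ^ 8 + v ^ 7) with hI
  set T := (range D).filter fun t => ∀ p ∈ S, Rt F p (r + t) with hT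
  have D0 : 0 < D := prod_pos fun p hp => (hS p hp).pos
  have v1 : 1 ≤ v := by omega
  have w1 : v ^ 7 ≤ v ^ 8 := Nat.pow_le_pow_right v1 (by norm_num)
  have hc : ∀ c ∈ I, cnt (Ico (E * c * y) (E * c * y + E * c * y))
      (fun m => ∀ p ∈ S, Rt F p (r + m * u c)) ≤ cnt T fun t => Hit D Y Y' (E * t) c := by
    intro c hc
    have c1 := mem_Ico.1 hc
    have l1 : Y ≤ E * c * y := by rw [hY]; gcongr; exact c1.1
    have l2 : E * c * y ≤ E * (v ^ 8 + v ^ 7) * y := by gcongr; exact c1.2.le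
    have l3 : E * c * y ≤ D := by
      calc E * c * y ≤ E * (2 * v ^ 8) * y := by gcongr; omega
        _ = 2 * Y := by rw [hY]; ring
        _ ≤ v * (Z * v ^ 4) := by gcongr; omega
        _ = Z * v ^ 5 := by ring
        _ ≤ D := D1
    have back : ∀ m, c * (E * (m * u c % D)) ≡ m [MOD D] := fun m => by
      have a1 : c * (E * (m * u c % D)) ≡ c * (E * (m * u c)) [MOD D] :=
        ((Nat.mod_modEq _ D).mul_left E).mul_left c
      have a2 := (hu c hc).mul_left m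
      rw [mul_one] at a2
      exact a1.trans (by convert a2 using 1; ring)
    rw [cnt_eq, cnt_eq]
    refine card_le_card_of_injOn (fun m => m * u c % D) (fun m hm => ?_) fun m hm m' hm' e => ?_
    · obtain ⟨m1, m2⟩ := mem_filter.1 hm
      rw [mem_Ico] at m1
      refine mem_filter.2 ⟨mem_filter.2 ⟨mem_range.2 (Nat.mod_lt _ D0), fun p hp' => ?_⟩,
        m, mem_Ico.2 ⟨by omega, by omega⟩, ?_⟩
      · exact Rt_per F p _ _ (((Nat.mod_modEq _ D).of_dvd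
          (dvd_prod_of_mem (fun p => p) hp')).add_left r).symm (m2 p hp')
      · have := (back m).dvd
        rwa [Nat.cast_mul c] at this
    · have m1 := mem_Ico.1 (mem_filter.1 hm).1
      have m2 := mem_Ico.1 (mem_filter.1 hm').1
      have a1 : m ≡ m' [MOD D] := by
        have b1 := back m
        simp only at e
        rw [e] at b1
        exact b1.symm.trans (back m')
      have a5 := Int.eq_zero_of_abs_lt_dvd a1.dvd (by rw [abs_lt]; omega)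
      omega
  have hT0 : 0 ∈ T := mem_filter.2 ⟨mem_range.2 D0, hr⟩
  have hTc : (T.card : ℝ) = ∏ p ∈ S, (nroots F p : ℝ) := by
    have := crt_card hS (B := fun p t => Rt F p (r + t * 1)) fun p _ => (Rt_per F p).aff r 1
    rw [prod_congr rfl fun p hp' => (aff_card (hS p hp').pos (Nat.coprime_one_right p) r
      (Rt_per F p)).trans (Rt_cnt F p)] at this
    simp only [mul_one] at this
    rw [← Nat.cast_prod, ← this, cnt_eq]
  have s1 : ∑ c ∈ I, (cnt (Ico (E * c * y) (E * c * y + E * c * y))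
      (fun m => ∀ p ∈ S, Rt F p (r + m * u c)) : ℝ) ≤
      ∑ t ∈ T, (cnt I (Hit D Y Y' (E * t)) : ℝ) := by
    have := (sum_le_sum hc).trans (sum_cnt I T fun c t => Hit D Y Y' (E * t) c).le
    exact_mod_cast this
  refine s1.trans ((sum_le_sum fun t ht => T1 t (mem_filter.1 ht).2).trans (le_of_eq ?_))
  rw [sum_add_distrib, sum_const, nsmul_eq_mul, hTc, ← add_sum_erase _ _ hT0, if_pos rfl,
    sum_congr rfl fun t ht => if_neg (mem_erase.1 ht).1, sum_const, nsmul_eq_mul,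
    card_erase_of_mem hT0, Nat.cast_sub (card_pos.2 ⟨0, hT0⟩), hTc, prod_div_distrib,
    prod_div_distrib, prod_const_one, ← Nat.cast_prod (fun p => p) S, ← hD]
  congr 1
  · rw [Nat.succ_eq_add_one, zero_add 1, Nat.cast_one]
    ring
  · split_ifs <;> ring

end Pool.Agent.MP_6e51af_nt.H82
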